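import Pool.Agent.TH993.SP.Defs

/-!
# Linear functionals are concave on half of the unit circle parametrised by the area

Project MP_c499fd_gt, step CONC.
-/

set_option autoImplicit false

open Set Filter Topology
open Pool.Agent.TH993.SP

namespace Pool.Agent.TH378.SPC

variable {N : ℝ × ℝ → ℝ} {T : ℝ} {X : ℝ → ℝ × ℝ}

lemma wd_self (u : ℝ × ℝ) : wd u u = 0 := by unfold wd; ring

/-- the Pluecker relation, vector form -/
lemma plv (u v w : ℝ × ℝ) : wd u w • v = wd v w • u + wd u v • w := by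
  ext <;> simp [wd] <;> ring

/-- the Pluecker relation, scalar form -/
lemma pl (z u v w : ℝ × ℝ) : wd z v * wd u w = wd z u * wd v w + wd z w * wd u v := by
  unfold wd; ring

lemma D_le (hX : Par N T X) (a b : ℝ) (h : a ≤ b) : wd (X a) (X b) ≤ b - a := by
  have h1 := hX.A1 a b (X a) h
  rw [hX.one] at h1
  have h2 : wd (X a) (X b - X a) = wd (X a) (X b) := by
    unfold wd; simp only [Prod.fst_sub, Prod.snd_sub]; ring
  rw [h2] at h1
  linarith

lemma D_T (hX : Par N T X) (a : ℝ) : wd (X a) (X (a + T)) = 0 := by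
  rw [hX.anti]; unfold wd; simp only [Prod.fst_neg, Prod.snd_neg]; ring

lemma D_nonneg (hX : Par N T X) (a b : ℝ) (h1 : a ≤ b) (h2 : b ≤ a + T) :
    0 ≤ wd (X a) (X b) := by
  rcases h1.eq_or_lt with h | h
  · rw [h, wd_self]
  · rcases h2.eq_or_lt with h3 | h3
    · rw [h3, D_T hX]
    · exact (hX.A3 a b h h3).le

lemma tri (hN : IsN N) (hX : Par N T X) (a b d : ℝ) (h1 : a < b) (h2 : b < d) (h3 : d ≤ a + T) :
    wd (X a) (X d) ≤ wd (X a) (X b) + wd (X b) (X d) := by
  have e1 := plv (X a) (X b) (X d)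
  have e2 := congrArg N e1
  have n1 := D_nonneg hX a d (h1.trans h2).le h3
  have n2 := D_nonneg hX a b h1.le (by linarith)
  have n3 := D_nonneg hX b d h2.le (by linarith)
  have e3 := hN.add (wd (X b) (X d) • X a) (wd (X a) (X b) • X d)
  rw [← e2, hN.smul, hN.smul, hN.smul, hX.one, hX.one, hX.one, abs_of_nonneg n1,
    abs_of_nonneg n2, abs_of_nonneg n3] at e3
  linarith

/-- the local inequality -/
lemma four (hN : IsN N) (hX : Par N T X) (c s1 s2 s3 s4 : ℝ) (h1 : c ≤ s1) (h2 : s1 < s2)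
    (h3 : s2 ≤ s3) (h4 : s3 < s4) (h5 : s4 ≤ c + T) :
    (wd (X c) (X s4) - wd (X c) (X s3)) * wd (X s1) (X s2) ≤
      (wd (X c) (X s2) - wd (X c) (X s1)) * wd (X s3) (X s4) := by
  have t2 := D_nonneg hX c s2 (by linarith) (by linarith)
  have t3 := D_nonneg hX c s3 (by linarith) (by linarith)
  have d12 := D_nonneg hX s1 s2 (by linarith) (by linarith)
  have d34 := D_nonneg hX s3 s4 (by linarith) (by linarith)
  rcases h3.eq_or_lt with h | h
  · subst h
    have e1 := pl (X c) (X s1) (X s2) (X s4)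
    have e2 := tri hN hX s1 s2 s4 h2 h4 (by linarith)
    have e3 := mul_nonneg t2 (sub_nonneg.2 e2)
    nlinarith
  · have d23 := hX.A3 s2 s3 h (by linarith)
    have e1 := pl (X c) (X s1) (X s2) (X s3)
    have e2 := pl (X c) (X s2) (X s3) (X s4)
    have e3 := tri hN hX s1 s2 s3 h2 h (by linarith)
    have e4 := tri hN hX s2 s3 s4 h h4 (by linarith)
    have e5 := mul_nonneg (mul_nonneg d34 (sub_nonneg.2 e3)) t2
    have e6 := mul_nonneg (mul_nonneg d12 (sub_nonneg.2 e4)) t3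
    have e7 : wd (X s2) (X s3) * ((wd (X c) (X s2) - wd (X c) (X s1)) * wd (X s3) (X s4) -
        (wd (X c) (X s4) - wd (X c) (X s3)) * wd (X s1) (X s2)) =
        wd (X s3) (X s4) * (wd (X s1) (X s2) + wd (X s2) (X s3) - wd (X s1) (X s3)) *
          wd (X c) (X s2) +
        wd (X s1) (X s2) * (wd (X s2) (X s3) + wd (X s3) (X s4) - wd (X s2) (X s4)) *
          wd (X c) (X s3) := by
      linear_combination wd (X s3) (X s4) * e1 + wd (X s1) (X s2) * e2
    have e8 : 0 ≤ wd (X s2) (X s3) * ((wd (X c) (X s2) - wd (X c) (X s1)) * wd (X s3) (X s4) -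
        (wd (X c) (X s4) - wd (X c) (X s3)) * wd (X s1) (X s2)) := by
      rw [e7]; exact add_nonneg e5 e6
    have e9 := nonneg_of_mul_nonneg_right e8 d23
    linarith

/-- the sum of the areas of the parts of `[a, b]` -/
noncomputable def S (X : ℝ → ℝ × ℝ) (a b : ℝ) (n : ℕ) : ℝ :=
  ∑ i ∈ Finset.range n, wd (X (a + i * ((b - a) / n))) (X (a + (i + 1 : ℕ) * ((b - a) / n)))

lemma S_tendsto (hX : Par N T X) (a b : ℝ) (h : a < b) :
    Tendsto (fun n : ℕ => S X a b (n + 1)) atTop (𝓝 (b - a)) := by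
  rw [Metric.tendsto_atTop]
  intro ε hε
  have hba : 0 < b - a := sub_pos.2 h
  obtain ⟨η, hη, hA⟩ := hX.A2 (ε / (2 * (b - a))) (by positivity)
  obtain ⟨n0, hn0⟩ := exists_nat_gt ((b - a) / η)
  refine ⟨n0, fun n hn => ?_⟩
  have hn1 : (0 : ℝ) < (n + 1 : ℕ) := by positivity
  set w : ℝ := (b - a) / (n + 1 : ℕ) with hw
  have hw0 : 0 < w := div_pos hba hn1
  have hwη : w < η := by
    rw [hw, div_lt_iff₀ hn1]
    rw [div_lt_iff₀ hη] at hn0
    have : (n0 : ℝ) ≤ (n + 1 : ℕ) := by exact_mod_cast (by omega : n0 ≤ n + 1)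
    nlinarith
  have hsum : (n + 1 : ℕ) * w = b - a := by rw [hw]; field_simp
  have hup : S X a b (n + 1) ≤ b - a := by
    rw [← hsum]
    unfold S
    refine (Finset.sum_le_sum (g := fun _ => w) fun i _ => ?_).trans
      (le_of_eq (by rw [Finset.sum_const, Finset.card_range, nsmul_eq_mul]))
    have := D_le hX (a + i * w) (a + (i + 1 : ℕ) * w) (by push_cast; nlinarith)
    refine this.trans (le_of_eq (by push_cast; ring))
  have hlo : (1 - ε / (2 * (b - a))) * (b - a) ≤ S X a b (n + 1) := by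
    have e1 : (1 - ε / (2 * (b - a))) * (b - a) = (n + 1 : ℕ) * ((1 - ε / (2 * (b - a))) * w) := by
      rw [← hsum]; ring
    rw [e1]
    unfold S
    refine (le_of_eq (by rw [Finset.sum_const, Finset.card_range, nsmul_eq_mul])).trans
      (Finset.sum_le_sum (f := fun _ => (1 - ε / (2 * (b - a))) * w) fun i _ => ?_)
    have := hA (a + i * w) (a + (i + 1 : ℕ) * w) (by push_cast; nlinarith) (by push_cast; nlinarith)
    refine (le_of_eq (by push_cast; ring)).trans this
  have e2 : (1 - ε / (2 * (b - a))) * (b - a) = (b - a) - ε / 2 := by field_simp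
  rw [e2] at hlo
  rw [Real.dist_eq, abs_lt]
  constructor <;> linarith

lemma slope (hN : IsN N) (hX : Par N T X) (c a b d : ℝ) (h1 : c ≤ a) (h2 : a < b) (h3 : b < d)
    (h4 : d ≤ c + T) :
    (wd (X c) (X d) - wd (X c) (X b)) * (b - a) ≤ (wd (X c) (X b) - wd (X c) (X a)) * (d - b) := by
  refine le_of_tendsto_of_tendsto' ((S_tendsto hX a b h2).const_mul _)
    ((S_tendsto hX b d h3).const_mul _) fun n => ?_
  have hn1 : (0 : ℝ) < (n + 1 : ℕ) := by positivity
  set w : ℝ := (b - a) / (n + 1 : ℕ) with hw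
  have hw0 : 0 < w := div_pos (sub_pos.2 h2) hn1
  set v : ℝ := (d - b) / (n + 1 : ℕ) with hv
  have hv0 : 0 < v := div_pos (sub_pos.2 h3) hn1
  have hsw : (n + 1 : ℕ) * w = b - a := by rw [hw]; field_simp
  have hsv : (n + 1 : ℕ) * v = d - b := by rw [hv]; field_simp
  have t1 : wd (X c) (X b) - wd (X c) (X a) = ∑ i ∈ Finset.range (n + 1),
      (wd (X c) (X (a + (i + 1 : ℕ) * w)) - wd (X c) (X (a + i * w))) := by
    rw [Finset.sum_range_sub (fun i : ℕ => wd (X c) (X (a + i * w)))]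
    rw [hsw]; simp
  have t2 : wd (X c) (X d) - wd (X c) (X b) = ∑ i ∈ Finset.range (n + 1),
      (wd (X c) (X (b + (i + 1 : ℕ) * v)) - wd (X c) (X (b + i * v))) := by
    rw [Finset.sum_range_sub (fun i : ℕ => wd (X c) (X (b + i * v)))]
    rw [hsv]; simp
  rw [t1, t2]
  unfold S
  rw [← hw, ← hv, Finset.sum_mul_sum, Finset.sum_mul_sum, Finset.sum_comm]
  refine Finset.sum_le_sum fun i hi => Finset.sum_le_sum fun j hj => ?_
  have hi' : ((i + 1 : ℕ) : ℝ) ≤ (n + 1 : ℕ) := by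
    exact_mod_cast Finset.mem_range.1 hi
  have hj' : ((j + 1 : ℕ) : ℝ) ≤ (n + 1 : ℕ) := by
    exact_mod_cast Finset.mem_range.1 hj
  have p1 : ((i + 1 : ℕ) : ℝ) * w ≤ b - a := by
    rw [← hsw]; exact mul_le_mul_of_nonneg_right hi' hw0.le
  have p2 : ((j + 1 : ℕ) : ℝ) * v ≤ d - b := by
    rw [← hsv]; exact mul_le_mul_of_nonneg_right hj' hv0.le
  have q1 : (0 : ℝ) ≤ (i : ℝ) * w := by positivity
  have q2 : (0 : ℝ) ≤ (j : ℝ) * v := by positivity
  have r1 : ((i + 1 : ℕ) : ℝ) * w = i * w + w := by push_cast; ring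
  have r2 : ((j + 1 : ℕ) : ℝ) * v = j * v + v := by push_cast; ring
  exact four hN hX c (a + i * w) (a + (i + 1 : ℕ) * w) (b + j * v) (b + (j + 1 : ℕ) * v)
    (by linarith) (by linarith) (by linarith) (by linarith) (by linarith)

theorem CONC : S_CONC := by
  intro N T X hN hX c
  refine ⟨fun a ha => D_nonneg hX c a ha.1 ha.2, ?_⟩
  refine concaveOn_of_slope_anti_adjacent (convex_Icc _ _) ?_
  intro x y z hx hz hxy hyz
  have h := slope hN hX c x y z hx.1 hxy hyz hz.2
  rw [div_le_div_iff₀ (sub_pos.2 hyz) (sub_pos.2 hxy)]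
  exact h

end Pool.Agent.TH378.SPC
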