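import Pool.Agent.W862.LE.Lift
import Pool.Agent.W426.LE.EL

/-!
# Signed counts of 1-factorizations of multigraphs given by a 1-factorization
-/

set_option autoImplicit false

namespace Pool.Agent.TH378.LC

open Finset Pool.Agent.W426.LE

/-- colourings of the base, as families of permutations: `σ w i` is the colour of the `i`-th edge
at `w` -/
def Cons {d : ℕ} {W : Type} (f : Fin d → W → W) (σ : W → Equiv.Perm (Fin d)) : Prop :=
  ∀ w i, σ (f i w) i = σ w i

open Classical in
/-- signed number of the 1-factorizations -/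
noncomputable def AT {d : ℕ} {W : Type} [Fintype W] (f : Fin d → W → W) : ℤ :=
  ∑ σ ∈ univ.filter (fun σ : W → Equiv.Perm (Fin d) => Cons f σ),
    ∏ w, ((Equiv.Perm.sign (σ w) : ℤˣ) : ℤ)

section base

variable {d : ℕ} {W : Type} (idx : W → ℕ) (f : Fin d → W → W)

/-- edges of the base multigraph: label and first end -/
abbrev BE : Type := {q : Fin d × W // idx q.2 < idx (f q.1 q.2)}

variable (hidx : Function.Injective idx) (hinv : ∀ i w, f i (f i w) = w) (hne : ∀ i w, f i w ≠ w)

include hidx hinv hne in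
lemma idx_lt {w : W} {i : Fin d} (h : ¬ idx w < idx (f i w)) :
    idx (f i w) < idx (f i (f i w)) := by
  rw [hinv]
  have : idx (f i w) ≠ idx w := fun h' => hne i w (hidx h')
  omega

/-- incidence -/
def binc (w : W) (i : Fin d) : BE idx f :=
  if h : idx w < idx (f i w) then ⟨(i, w), h⟩ else
    ⟨(i, f i w), idx_lt idx f hidx hinv hne h⟩

lemma binc_pos {w : W} {i : Fin d} (h : idx w < idx (f i w)) :
    binc idx f hidx hinv hne w i = ⟨(i, w), h⟩ := by
  unfold binc; rw [dif_pos h]

lemma binc_neg {w : W} {i : Fin d} (h : ¬ idx w < idx (f i w)) :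
    binc idx f hidx hinv hne w i = ⟨(i, f i w), idx_lt idx f hidx hinv hne h⟩ := by
  unfold binc; rw [dif_neg h]

lemma binc_f (w : W) (i : Fin d) :
    binc idx f hidx hinv hne (f i w) i = binc idx f hidx hinv hne w i := by
  by_cases h : idx w < idx (f i w)
  · have h' : ¬ idx (f i w) < idx (f i (f i w)) := by rw [hinv]; omega
    rw [binc_pos idx f hidx hinv hne h, binc_neg idx f hidx hinv hne h']
    apply Subtype.ext
    show (i, f i (f i w)) = (i, w)
    rw [hinv]
  · have h' : idx (f i w) < idx (f i (f i w)) := idx_lt idx f hidx hinv hne h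
    rw [binc_neg idx f hidx hinv hne h, binc_pos idx f hidx hinv hne h']

open Classical in
theorem NN_binc [Fintype W] :
    NN (Equiv.refl (Fin d)) (binc idx f hidx hinv hne) = AT f := by
  symm
  unfold AT NN
  let X : (W → Equiv.Perm (Fin d)) → BE idx f → Fin d := fun σ e => σ e.1.2 e.1.1
  have hX : ∀ σ, Cons f σ → ∀ v i, X σ (binc idx f hidx hinv hne v i) = σ v i := by
    intro σ hσ v i
    by_cases h : idx v < idx (f i v)
    · rw [binc_pos idx f hidx hinv hne h]
    · rw [binc_neg idx f hidx hinv hne h]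
      exact hσ v i
  refine Finset.sum_of_injOn X ?_ ?_ ?_ ?_
  · intro σ hσ σ' hσ' h
    have hσ := (Finset.mem_filter.1 (Finset.mem_coe.1 hσ)).2
    have hσ' := (Finset.mem_filter.1 (Finset.mem_coe.1 hσ')).2
    funext v
    ext i
    rw [← hX σ hσ, ← hX σ' hσ', h]
  · intro σ _
    simp
  · intro x _ hx
    by_contra hne0
    apply hx
    have hb : ∀ v, Function.Bijective (fun i => x (binc idx f hidx hinv hne v i)) := by
      intro v
      by_contra hb
      exact hne0 (Finset.prod_eq_zero (Finset.mem_univ v) (sg_of_not _ _ hb))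
    let σ : W → Equiv.Perm (Fin d) := fun v => Equiv.ofBijective _ (hb v)
    have hσ : Cons f σ := by
      intro v i
      show x (binc idx f hidx hinv hne (f i v) i) = x (binc idx f hidx hinv hne v i)
      rw [binc_f]
    refine ⟨σ, by simpa using hσ, ?_⟩
    funext e
    show x (binc idx f hidx hinv hne e.1.2 e.1.1) = x e
    rw [binc_pos idx f hidx hinv hne e.2]
  · intro σ hσ
    have hσ := (Finset.mem_filter.1 hσ).2
    refine Finset.prod_congr rfl fun v _ => ?_
    have h1 : (fun i => X σ (binc idx f hidx hinv hne v i)) = (σ v : Fin d → Fin d) := by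
      funext i
      exact hX σ hσ v i
    rw [h1, sg_equiv]
    have hs' : ∀ (i1 i2 : DecidableEq (Fin d)) (τ τ' : Equiv.Perm (Fin d)), τ = τ' →
        ((@Equiv.Perm.sign _ i1 _ τ : ℤˣ) : ℤ) = ((@Equiv.Perm.sign _ i2 _ τ' : ℤˣ) : ℤ) :=
      fun i1 i2 τ τ' h => by rw [Subsingleton.elim i1 i2, h]
    exact hs' _ _ _ _ (Equiv.ext fun _ => rfl)

end base

end Pool.Agent.TH378.LC
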