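import Pool.Agent.TH378.LCSplice

/-!
# Operations on 1-factorizations and the signed count
-/

set_option autoImplicit false

namespace Pool.Agent.TH378.LC

open Finset

section

variable {d : ℕ}

theorem pcov_not_dvd (p : ℕ) [Fact p.Prime] {W Q Ω : Type} [Finite W] [Group Q] [Finite Q]
    [MulAction Q Ω] [Finite Ω] (hQ : IsPGroup p Q) (f : Fin d → W → W) (β : Fin d → W → Q)
    (hAT : ∀ _ : Fintype W, ¬ ((p : ℤ) ∣ AT f)) (inst : Fintype (W × Ω)) :
    ¬ ((p : ℤ) ∣ AT (pcov (Ω := Ω) f β)) := by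
  classical
  have i1 : Fintype W := Fintype.ofFinite W
  have i2 : Fintype Ω := Fintype.ofFinite Ω
  have hi : inst = instFintypeProd W Ω := Subsingleton.elim _ _
  subst hi
  intro h0
  obtain ⟨m, hm⟩ := pcov_mod p (Ω := Ω) hQ f β
  have h1 : ((AT (pcov (Ω := Ω) f β) : ℤ) : ZMod p) = 0 := by
    rw [ZMod.intCast_zmod_eq_zero_iff_dvd]
    exact h0
  rw [h1] at hm
  have h2 : ((AT f : ℤ) : ZMod p) = 0 := eq_zero_of_pow_eq_zero hm.symm
  exact hAT _ ((ZMod.intCast_zmod_eq_zero_iff_dvd _ p).1 h2)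

theorem splice_not_dvd (p : ℕ) (hp : p.Prime) (hd : 1 ≤ d) {W1 W2 : Type} [Finite W1] [Finite W2]
    (f1 : Fin d → Option W1 → Option W1) (f2 : Fin d → Option W2 → Option W2)
    (hi1 : ∀ i w, f1 i (f1 i w) = w) (hn1 : ∀ i w, f1 i w ≠ w)
    (hi2 : ∀ i w, f2 i (f2 i w) = w) (hn2 : ∀ i w, f2 i w ≠ w)
    (h1 : ∀ _ : Fintype (Option W1), ¬ ((p : ℤ) ∣ AT f1))
    (h2 : ∀ _ : Fintype (Option W2), ¬ ((p : ℤ) ∣ AT f2)) (inst : Fintype (W1 ⊕ W2)) :
    ¬ ((p : ℤ) ∣ AT (splice f1 f2)) := by
  classical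
  have i1 : Fintype W1 := Fintype.ofFinite W1
  have i2 : Fintype W2 := Fintype.ofFinite W2
  have hi : inst = instFintypeSum W1 W2 := Subsingleton.elim _ _
  subst hi
  intro h0
  have h3 : (p : ℤ) ∣ AT f1 * AT f2 := by
    rw [← AT_splice f1 f2 hi1 hn1 hi2 hn2 hd]
    exact Dvd.dvd.mul_left h0 _
  rcases (Nat.prime_iff_prime_int.1 hp).dvd_or_dvd h3 with h | h
  · exact h1 _ h
  · exact h2 _ h

open Classical in
theorem AT_iso {W W' : Type} [Fintype W] [Fintype W'] (e : W ≃ W') (f : Fin d → W → W) :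
    AT (fun i v => e (f i (e.symm v))) = AT f := by
  unfold AT
  rw [Finset.sum_filter, Finset.sum_filter]
  refine Fintype.sum_equiv
    { toFun := fun (σ : W' → Equiv.Perm (Fin d)) w => σ (e w)
      invFun := fun σ v => σ (e.symm v)
      left_inv := fun σ => by funext v; simp
      right_inv := fun σ => by funext v; simp } _ _ ?_
  intro σ
  show (if Cons (fun i v => e (f i (e.symm v))) σ then _ else (0 : ℤ)) =
    if Cons f (fun w => σ (e w)) then ∏ w, ((Equiv.Perm.sign (σ (e w)) : ℤˣ) : ℤ) else 0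
  have h1 : Cons (fun i v => e (f i (e.symm v))) σ ↔ Cons f (fun w => σ (e w)) := by
    constructor
    · intro h w i
      have := h (e w) i
      simpa using this
    · intro h v i
      have := h (e.symm v) i
      simpa using this
  by_cases h : Cons f (fun w => σ (e w))
  · rw [if_pos h, if_pos (h1.2 h)]
    exact (Fintype.prod_equiv e _ _ (fun w => rfl)).symm
  · rw [if_neg h, if_neg (fun h' => h (h1.1 h'))]

open Classical in
theorem AT_relabel {W : Type} [Fintype W] (hW : Even (Fintype.card W)) (f : Fin d → W → W)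
    (π : Equiv.Perm (Fin d)) : AT (fun i => f (π i)) = AT f := by
  unfold AT
  rw [Finset.sum_filter, Finset.sum_filter]
  refine Fintype.sum_equiv
    { toFun := fun (σ : W → Equiv.Perm (Fin d)) w => σ w * π⁻¹
      invFun := fun σ w => σ w * π
      left_inv := fun σ => by funext v; simp
      right_inv := fun σ => by funext v; simp } _ _ ?_
  intro σ
  show (if Cons (fun i => f (π i)) σ then ∏ w, ((Equiv.Perm.sign (σ w) : ℤˣ) : ℤ) else (0 : ℤ)) =
    if Cons f (fun w => σ w * π⁻¹) then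
      ∏ w, ((Equiv.Perm.sign (σ w * π⁻¹) : ℤˣ) : ℤ) else 0
  have h1 : Cons (fun i => f (π i)) σ ↔ Cons f (fun w => σ w * π⁻¹) := by
    constructor
    · intro h w j
      have := h w (π⁻¹ j)
      have e1 : π (π⁻¹ j) = j := by simp
      simp only [e1] at this
      exact this
    · intro h w i
      have h2 := h w (π i)
      have e1 : π⁻¹ (π i) = i := by simp
      rw [Equiv.Perm.mul_apply, Equiv.Perm.mul_apply, e1] at h2
      exact h2
  by_cases h : Cons f (fun w => σ w * π⁻¹)
  · rw [if_pos h, if_pos (h1.2 h)]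
    have h3 : ∀ w, ((Equiv.Perm.sign (σ w * π⁻¹) : ℤˣ) : ℤ) =
        ((Equiv.Perm.sign (σ w) : ℤˣ) : ℤ) * ((Equiv.Perm.sign π : ℤˣ) : ℤ) := by
      intro w
      rw [map_mul, Equiv.Perm.sign_inv, Units.val_mul]
    simp only [h3]
    rw [Finset.prod_mul_distrib, Finset.prod_const, Finset.card_univ]
    obtain ⟨m, hm⟩ := hW
    have h4 : ((Equiv.Perm.sign π : ℤˣ) : ℤ) * ((Equiv.Perm.sign π : ℤˣ) : ℤ) = 1 := by
      rw [← Units.val_mul, Int.units_mul_self, Units.val_one]
    rw [hm, ← two_mul, pow_mul, pow_two, h4, one_pow, mul_one]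
  · rw [if_neg h, if_neg (fun h' => h (h1.1 h'))]

/-- functions with the same numbers of values agree up to a permutation -/
theorem exists_perm_of_card {X : Type} (F G : Fin d → X)
    (h : ∀ m, Nat.card {i // F i = m} = Nat.card {i // G i = m}) :
    ∃ π : Equiv.Perm (Fin d), ∀ i, G (π i) = F i := by
  have e : ∀ m, {i // F i = m} ≃ {i // G i = m} := fun m =>
    (Finite.card_eq.1 (h m)).some
  refine ⟨(Equiv.sigmaFiberEquiv F).symm.trans
    ((Equiv.sigmaCongrRight e).trans (Equiv.sigmaFiberEquiv G)), ?_⟩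
  intro i
  exact (e (F i) ⟨i, rfl⟩).2

/-- perfect matchings of a simple graph, as involutions -/
def PM {W : Type} (H : SimpleGraph W) (m : W → W) : Prop :=
  (∀ w, m (m w) = w) ∧ ∀ w, H.Adj w (m w)

open Classical in
/-- the indicator vector of a perfect matching -/
noncomputable def mvec {W : Type} (m : W → W) : W × W → ℚ := fun x => if m x.1 = x.2 then 1 else 0

open Classical in
/-- linearly independent perfect matchings -/
theorem uniq_of_indep {W : Type} [Finite W] (H : SimpleGraph W) (f : Fin d → W → W)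
    (hinv : ∀ i w, f i (f i w) = w) (hf : ∀ i w, H.Adj w (f i w))
    (hli : LinearIndependent ℚ (fun m : {m : W → W // PM H m} => mvec m.1)) : UNIQ f := by
  intro g hg hcard
  have := Fintype.ofFinite W
  have hgPM : ∀ i, PM H (g i) := by
    intro i
    refine ⟨hg i, fun w => ?_⟩
    have h1 : 0 < Nat.card {j // g j w = g i w} := by
      rw [Nat.card_pos_iff]
      exact ⟨⟨⟨i, rfl⟩⟩, inferInstance⟩
    rw [hcard, Nat.card_pos_iff] at h1
    obtain ⟨⟨j, hj⟩⟩ := h1.1
    rw [← hj]
    exact hf j w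
  have hfPM : ∀ i, PM H (f i) := fun i => ⟨hinv i, hf i⟩
  rw [Fintype.linearIndependent_iff] at hli
  have h2 := hli (fun m => ∑ i, ((if (⟨g i, hgPM i⟩ : {m : W → W // PM H m}) = m then (1 : ℚ) else 0) -
    (if (⟨f i, hfPM i⟩ : {m : W → W // PM H m}) = m then 1 else 0))) ?_
  · refine exists_perm_of_card f g ?_
    · intro m
      have e1 : ∀ (F : Fin d → W → W), (Nat.card {i // F i = m} : ℚ) =
          ∑ i, (if F i = m then (1 : ℚ) else 0) := by
        intro F
        rw [Finset.sum_boole, Nat.card_eq_fintype_card, Fintype.card_subtype]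
      by_cases hm : PM H m
      · have h3 := h2 ⟨m, hm⟩
        simp only [Subtype.mk.injEq] at h3
        rw [Finset.sum_sub_distrib, ← e1, ← e1, sub_eq_zero] at h3
        exact_mod_cast h3.symm
      · have h4 : ∀ F : Fin d → W → W, (∀ i, PM H (F i)) → Nat.card {i // F i = m} = 0 := by
          intro F hF
          rw [Nat.card_eq_zero]
          left
          exact ⟨fun x => hm (x.2 ▸ hF x.1)⟩
        rw [h4 f hfPM, h4 g hgPM]
  · funext x
    obtain ⟨v, w⟩ := x
    have e1 : ∀ (F : Fin d → W → W), (∑ i, mvec (F i) (v, w)) = (Nat.card {i // F i v = w} : ℚ) := by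
      intro F
      unfold mvec
      rw [Finset.sum_boole, Nat.card_eq_fintype_card, Fintype.card_subtype]
    have e2 : (∑ m : {m : W → W // PM H m},
        (∑ i, ((if (⟨g i, hgPM i⟩ : {m : W → W // PM H m}) = m then (1 : ℚ) else 0) -
        (if (⟨f i, hfPM i⟩ : {m : W → W // PM H m}) = m then 1 else 0))) • mvec m.1) (v, w) =
        (∑ i, mvec (g i) (v, w)) - ∑ i, mvec (f i) (v, w) := by
      rw [Finset.sum_apply]
      simp only [Pi.smul_apply, smul_eq_mul, Finset.sum_mul, sub_mul, Finset.sum_sub_distrib]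
      congr 1
      · rw [Finset.sum_comm]
        refine Finset.sum_congr rfl fun i _ => ?_
        simp
      · rw [Finset.sum_comm]
        refine Finset.sum_congr rfl fun i _ => ?_
        simp
    rw [e2, e1, e1, hcard, sub_self]
    rfl

end

end Pool.Agent.TH378.LC
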