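import Pool.Agent.TH378.LCPerm

/-!
# Graphs given by a 1-factorization
-/

set_option autoImplicit false

namespace Pool.Agent.TH378.LC

open Finset Pool.Agent.W426.LE

section

variable {d : ℕ} {V : Type} (F : Fin d → V → V)

/-- the graph with the edges `{v, F i v}` -/
def fgraph : SimpleGraph V := SimpleGraph.fromRel (fun a b => ∃ i, F i a = b)

variable (hinv : ∀ i v, F i (F i v) = v) (hne : ∀ i v, F i v ≠ v)
  (hS : ∀ v i j, F i v = F j v → i = j)

include hinv hne in
lemma fgraph_adj (a b : V) : (fgraph F).Adj a b ↔ ∃ i, F i a = b := by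
  unfold fgraph
  rw [SimpleGraph.fromRel_adj]
  constructor
  · rintro ⟨hab, ⟨i, h1⟩ | ⟨i, h1⟩⟩
    · exact ⟨i, h1⟩
    · exact ⟨i, by rw [← h1, hinv]⟩
  · rintro ⟨i, rfl⟩
    exact ⟨(hne i a).symm, Or.inl ⟨i, rfl⟩⟩

include hinv hne hS in
open Classical in
theorem fam_EL [Fintype V] (hAT : AT F ≠ 0) : EL.EL (fgraph F) d := by
  obtain ⟨n, ⟨e0⟩⟩ := Finite.exists_equiv_fin V
  let idx : V → ℕ := fun w => (e0 w : ℕ)
  have hidx : Function.Injective idx := fun a b h => e0.injective (Fin.ext h)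
  let inc := binc idx F hidx hinv hne
  have hN : NN (Equiv.refl (Fin d)) inc ≠ 0 := by
    rw [NN_binc]
    exact hAT
  have hmem : ∀ e : BE idx F, s(e.1.2, F e.1.1 e.1.2) ∈ (fgraph F).edgeSet := by
    intro e
    rw [SimpleGraph.mem_edgeSet, fgraph_adj F hinv hne]
    exact ⟨e.1.1, rfl⟩
  let ψ0 : BE idx F → (fgraph F).edgeSet := fun e => ⟨_, hmem e⟩
  have hinj : Function.Injective ψ0 := by
    rintro ⟨⟨i, w⟩, hw⟩ ⟨⟨j, w'⟩, hw'⟩ heq
    have h1 := congrArg Subtype.val heq
    simp only [ψ0] at h1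
    rw [Sym2.eq_iff] at h1
    rcases h1 with ⟨h1, h2⟩ | ⟨h1, h2⟩
    · subst h1
      have a5 := hS w i j h2
      subst a5
      rfl
    · exfalso
      have a3 : idx w < idx (F i w) := hw
      have a4 : idx w' < idx (F j w') := hw'
      rw [h2] at a3
      rw [← h1] at a4
      omega
  have hsurj : Function.Surjective ψ0 := by
    rintro ⟨e, he⟩
    induction e using Sym2.ind with
    | _ a b =>
      rw [SimpleGraph.mem_edgeSet, fgraph_adj F hinv hne] at he
      obtain ⟨i, rfl⟩ := he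
      by_cases h : idx a < idx (F i a)
      · exact ⟨⟨(i, a), h⟩, rfl⟩
      · refine ⟨⟨(i, F i a), idx_lt idx F hidx hinv hne h⟩, ?_⟩
        refine Subtype.ext ?_
        show s(F i a, F i (F i a)) = s(a, F i a)
        rw [hinv, Sym2.eq_swap]
  let ψ : BE idx F ≃ (fgraph F).edgeSet := Equiv.ofBijective ψ0 ⟨hinj, hsurj⟩
  have h5 : EL.EL (fgraph F) (Fintype.card (Fin d)) := by
    refine EL.sGRE V (BE idx F) (Fin d) (Fin d) (Equiv.refl _) inc (fgraph F) ψ ?_ ?_ ?_ hN
    · intro w i
      show w ∈ s((inc w i).1.2, F (inc w i).1.1 (inc w i).1.2)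
      by_cases h : idx w < idx (F i w)
      · have e1 : inc w i = ⟨(i, w), h⟩ := binc_pos idx F hidx hinv hne h
        rw [e1]
        exact Sym2.mem_mk_left _ _
      · have e1 : inc w i = ⟨(i, F i w), idx_lt idx F hidx hinv hne h⟩ :=
          binc_neg idx F hidx hinv hne h
        rw [e1]
        show w ∈ s(F i w, F i (F i w))
        rw [hinv]
        exact Sym2.mem_mk_right _ _
    · rintro w ⟨⟨i, w'⟩, hw'⟩ hv
      have hv' : w ∈ s(w', F i w') := hv
      have hw'' : idx w' < idx (F i w') := hw'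
      refine ⟨i, ?_⟩
      show inc w i = (⟨(i, w'), hw'⟩ : BE idx F)
      rcases Sym2.mem_iff.1 hv' with hv' | hv'
      · subst hv'
        exact binc_pos idx F hidx hinv hne hw''
      · subst hv'
        have hn : ¬ idx (F i w') < idx (F i (F i w')) := by rw [hinv]; omega
        have e1 : inc (F i w') i = ⟨(i, F i (F i w')), idx_lt idx F hidx hinv hne hn⟩ :=
          binc_neg idx F hidx hinv hne hn
        rw [e1]
        refine Subtype.ext ?_
        show (i, F i (F i w')) = (i, w')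
        rw [hinv]
    · rintro w i j hij
      have h6 : inc w i = inc w j := hij
      have h7 : ∀ k, (inc w k).1.1 = k := by
        intro k
        by_cases h : idx w < idx (F k w)
        · have e1 : inc w k = ⟨(k, w), h⟩ := binc_pos idx F hidx hinv hne h
          rw [e1]
        · have e1 : inc w k = ⟨(k, F k w), idx_lt idx F hidx hinv hne h⟩ :=
            binc_neg idx F hidx hinv hne h
          rw [e1]
      rw [← h7 i, ← h7 j, h6]
  rwa [Fintype.card_fin] at h5

include hinv hne hS in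
/-- the degree -/
theorem fam_not_colorable [Finite V] [Nonempty V] (hd : 1 ≤ d) :
    ¬ (fgraph F).lineGraph.Colorable (d - 1) := by
  classical
  have := Fintype.ofFinite V
  let v0 : V := Classical.arbitrary V
  refine EL.deg (fgraph F) d hd v0 ?_
  rw [← SimpleGraph.card_neighborSet_eq_degree]
  have hmem : ∀ i : Fin d, F i v0 ∈ (fgraph F).neighborSet v0 := by
    intro i
    rw [SimpleGraph.mem_neighborSet, fgraph_adj F hinv hne]
    exact ⟨i, rfl⟩
  have hinj : Function.Injective (fun i : Fin d =>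
      (⟨_, hmem i⟩ : (fgraph F).neighborSet v0)) := by
    intro i j hij
    exact hS v0 i j (congrArg Subtype.val hij)
  have h2 := Fintype.card_le_of_injective _ hinj
  rwa [Fintype.card_fin] at h2

end

section

variable {d : ℕ} {W Q Ω : Type} [Group Q] [MulAction Q Ω] (f : Fin d → W → W)
  (β : Fin d → W → Q)
variable (hinv : ∀ i w, f i (f i w) = w) (hne : ∀ i w, f i w ≠ w)
  (hβ : ∀ i w, β i (f i w) = (β i w)⁻¹)

include hinv hβ in
lemma pcov_inv (i : Fin d) (v : W × Ω) : pcov f β i (pcov f β i v) = v := by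
  show (f i (f i v.1), β i (f i v.1) • β i v.1 • v.2) = v
  rw [hinv, hβ, inv_smul_smul]

include hne in
lemma pcov_ne (i : Fin d) (v : W × Ω) : pcov f β i v ≠ v := by
  intro h
  exact hne i v.1 (congrArg Prod.fst h)

include hinv hne hβ in
/-- covers with `p`-group monodromy -/
theorem pcov_EL [Finite W] [Finite Ω] [Finite Q] (p : ℕ) [Fact p.Prime] (hQ : IsPGroup p Q)
    (hS : ∀ (v : W × Ω) i j, pcov f β i v = pcov f β j v → i = j)
    (hAT : ∀ _ : Fintype W, ¬ ((p : ℤ) ∣ AT f)) :
    EL.EL (fgraph (pcov (Ω := Ω) f β)) d := by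
  classical
  have := Fintype.ofFinite W
  have := Fintype.ofFinite Ω
  refine fam_EL _ (pcov_inv f β hinv hβ) (pcov_ne f β hne) hS ?_
  intro h0
  obtain ⟨m, hm⟩ := pcov_mod p (Ω := Ω) hQ f β
  have h1 : ((AT (pcov (Ω := Ω) f β) : ℤ) : ZMod p) = 0 := by
    have : AT (pcov (Ω := Ω) f β) = 0 := h0
    rw [this, Int.cast_zero]
  rw [h1] at hm
  have h2 : ((AT f : ℤ) : ZMod p) = 0 := eq_zero_of_pow_eq_zero hm.symm
  exact hAT _ ((ZMod.intCast_zmod_eq_zero_iff_dvd _ p).1 h2)

end

end Pool.Agent.TH378.LC
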