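import Pool.Agent.TH378.LCUniq

/-!
# Signed counts modulo `p` and quotients by `p`-groups
-/

set_option autoImplicit false

namespace Pool.Agent.TH378.LC

open Finset

open Classical in
/-- the signed count is not changed modulo `p` by dividing by a `p`-group that preserves the
1-factors -/
theorem AT_quot {d : ℕ} (p : ℕ) [Fact p.Prime] {V Z V' : Type} [Fintype V] [Group Z] [Fintype Z]
    [MulAction Z V] (hZ : IsPGroup p Z) (F : Fin d → V → V)
    (hF : ∀ (a : Z) i v, F i (a • v) = a • F i v) [Fintype V'] (q : V → V')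
    (hq : Function.Surjective q) (hqq : ∀ u v, q u = q v ↔ ∃ a : Z, a • u = v)
    (F' : Fin d → V' → V') (hF' : ∀ i v, F' i (q v) = q (F i v)) :
    ((AT F : ℤ) : ZMod p) = ((AT F' : ℤ) : ZMod p) := by
  let A : MulAction Z (V → Equiv.Perm (Fin d)) :=
    { smul := fun a σ v => σ (a⁻¹ • v)
      one_smul := fun σ => by
        funext v
        show σ ((1 : Z)⁻¹ • v) = σ v
        simp
      mul_smul := fun a b σ => by
        funext v
        show σ ((a * b)⁻¹ • v) = σ (b⁻¹ • a⁻¹ • v)
        rw [mul_inv_rev, mul_smul] }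
  have hsm : ∀ (a : Z) (σ : V → Equiv.Perm (Fin d)) (v : V), (a • σ) v = σ (a⁻¹ • v) :=
    fun _ _ _ => rfl
  let w : (V → Equiv.Perm (Fin d)) → ZMod p := fun σ =>
    if Cons F σ then ∏ v, (((Equiv.Perm.sign (σ v) : ℤˣ) : ℤ) : ZMod p) else 0
  let w' : (V' → Equiv.Perm (Fin d)) → ZMod p := fun σ =>
    if Cons F' σ then ∏ v, (((Equiv.Perm.sign (σ v) : ℤˣ) : ℤ) : ZMod p) else 0
  have e1 : ((AT F : ℤ) : ZMod p) = ∑ σ, w σ := by
    unfold AT
    rw [Int.cast_sum, Finset.sum_filter]
    refine Finset.sum_congr rfl fun σ _ => ?_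
    simp only [w]
    split_ifs <;> simp
  have e2 : ((AT F' : ℤ) : ZMod p) = ∑ σ, w' σ := by
    unfold AT
    rw [Int.cast_sum, Finset.sum_filter]
    refine Finset.sum_congr rfl fun σ _ => ?_
    simp only [w']
    split_ifs <;> simp
  have hcons : ∀ (a : Z) (σ : V → Equiv.Perm (Fin d)), Cons F (a • σ) ↔ Cons F σ := by
    intro a σ
    constructor
    · intro h v i
      have h1 := h (a • v) i
      rw [hsm, hsm, hF, inv_smul_smul, inv_smul_smul] at h1
      exact h1
    · intro h v i
      rw [hsm, hsm]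
      have h2 : a⁻¹ • F i v = F i (a⁻¹ • v) := (hF _ _ _).symm
      rw [h2]
      exact h _ _
  rw [e1, e2, Pool.Agent.W862.LE.sum_fixed' p hZ w ?_ ((univ : Finset (V' → Equiv.Perm (Fin d))).image
    (fun σ v => σ (q v))) ?_]
  · rw [Finset.sum_image]
    · refine Finset.sum_congr rfl fun σ _ => ?_
      have hc : Cons F (fun v => σ (q v)) ↔ Cons F' σ := by
        constructor
        · intro h v' i
          obtain ⟨v, rfl⟩ := hq v'
          rw [hF']
          exact h v i
        · intro h v i
          show σ (q (F i v)) i = σ (q v) i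
          rw [← hF']
          exact h _ _
      simp only [w, w', hc]
      split_ifs
      · rw [← Finset.prod_fiberwise' univ q
          (fun v' => (((Equiv.Perm.sign (σ v') : ℤˣ) : ℤ) : ZMod p))]
        refine Finset.prod_congr rfl fun v' _ => ?_
        rw [Finset.prod_const]
        obtain ⟨v, rfl⟩ := hq v'
        have h3 : (univ.filter (fun u => q u = q v)).card = Nat.card (MulAction.orbit Z v) := by
          rw [Nat.card_eq_fintype_card, ← Set.toFinset_card]
          congr 1
          ext u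
          rw [Finset.mem_filter, Set.mem_toFinset]
          constructor
          · rintro ⟨-, h⟩
            obtain ⟨a, ha⟩ := (hqq v u).1 h.symm
            exact ⟨a, ha⟩
          · rintro ⟨a, rfl⟩
            exact ⟨mem_univ _, ((hqq v (a • v)).2 ⟨a, rfl⟩).symm⟩
        obtain ⟨n, hn⟩ := hZ.card_orbit v
        rw [h3, hn, ZMod.pow_card_pow]
      · rfl
    · intro σ _ σ' _ h
      funext v'
      obtain ⟨v, rfl⟩ := hq v'
      exact congrFun h v
  · intro a σ
    simp only [w, hcons]
    split_ifs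
    · refine Fintype.prod_equiv (MulAction.toPerm a⁻¹) _ _ ?_
      intro v
      rw [hsm]
      rfl
    · rfl
  · intro σ
    rw [mem_image]
    constructor
    · rintro ⟨σ', -, rfl⟩ a
      funext v
      rw [hsm]
      have : q (a⁻¹ • v) = q v := (hqq _ _).2 ⟨a, by rw [smul_inv_smul]⟩
      show σ' (q (a⁻¹ • v)) = σ' (q v)
      rw [this]
    · intro h
      choose r hr using hq
      refine ⟨fun v' => σ (r v'), mem_univ _, ?_⟩
      funext v
      obtain ⟨a, ha⟩ := (hqq (r (q v)) v).1 (hr (q v))
      have h1 := congrFun (h a) v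
      have h2 : a⁻¹ • v = r (q v) := inv_smul_eq_iff.2 ha.symm
      rw [hsm, h2] at h1
      exact h1

/-- the permutation cover of a family of involutions -/
def pcov {d : ℕ} {W Q Ω : Type} [Group Q] [MulAction Q Ω] (f : Fin d → W → W)
    (β : Fin d → W → Q) : Fin d → W × Ω → W × Ω := fun i v => (f i v.1, β i v.1 • v.2)

open Classical in
/-- trivial covers -/
theorem AT_triv {d : ℕ} {W Ω : Type} [Fintype W] [Fintype Ω] (f : Fin d → W → W)
    (F : Fin d → W × Ω → W × Ω) (hF : ∀ i v, F i v = (f i v.1, v.2)) :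
    AT F = AT f ^ Fintype.card Ω := by
  have e1 : AT f ^ Fintype.card Ω = ∏ _ω : Ω, ∑ σ : W → Equiv.Perm (Fin d),
      (if Cons f σ then ∏ v, ((Equiv.Perm.sign (σ v) : ℤˣ) : ℤ) else 0) := by
    rw [Finset.prod_const, Finset.card_univ]
    unfold AT
    rw [Finset.sum_filter]
  rw [e1, Finset.prod_univ_sum, Fintype.piFinset_univ]
  unfold AT
  rw [Finset.sum_filter]
  let e : (W × Ω → Equiv.Perm (Fin d)) ≃ (Ω → W → Equiv.Perm (Fin d)) :=
    { toFun := fun σ ω w => σ (w, ω)
      invFun := fun τ v => τ v.2 v.1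
      left_inv := fun σ => rfl
      right_inv := fun τ => rfl }
  refine (Finset.sum_congr (by ext σ; simp) fun _ _ => rfl).trans
    (Fintype.sum_equiv e (fun σ : W × Ω → Equiv.Perm (Fin d) => if Cons F σ then
    ∏ v, ((Equiv.Perm.sign (σ v) : ℤˣ) : ℤ) else 0) _ ?_)
  · intro σ
    have h1 : Cons F σ ↔ ∀ ω, Cons f (fun w => σ (w, ω)) := by
      constructor
      · intro h ω w i
        have := h (w, ω) i
        rw [hF] at this
        exact this
      · rintro h ⟨w, ω⟩ i
        rw [hF]
        exact h ω w i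
    show (if Cons F σ then ∏ v, ((Equiv.Perm.sign (σ v) : ℤˣ) : ℤ) else 0) =
      ∏ ω, (if Cons f (fun w => σ (w, ω)) then
        ∏ v, ((Equiv.Perm.sign (σ (v, ω)) : ℤˣ) : ℤ) else 0)
    by_cases hc : Cons F σ
    · rw [if_pos hc, Fintype.prod_prod_type_right]
      refine Finset.prod_congr rfl fun ω _ => ?_
      rw [if_pos (h1.1 hc ω)]
    · rw [if_neg hc]
      rw [h1] at hc
      push Not at hc
      obtain ⟨ω, hω⟩ := hc
      symm
      refine Finset.prod_eq_zero (Finset.mem_univ ω) ?_
      rw [if_neg hω]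

end Pool.Agent.TH378.LC
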