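import Pool.Agent.TH378.LCMod

/-!
# Signed counts of covers with `p`-group monodromy
-/

set_option autoImplicit false

namespace Pool.Agent.TH378.LC

open Finset

open Classical in
theorem pcov_step {d : ℕ} (p : ℕ) [Fact p.Prime] {W Q Ω Ω' Z : Type} [Group Q] [MulAction Q Ω]
    [MulAction Q Ω'] [Group Z] [Fintype Z] [MulAction Z Ω] (hZ : IsPGroup p Z) [Fintype W]
    [Fintype Ω] [Fintype Ω'] (f : Fin d → W → W) (β : Fin d → W → Q)
    (hcom : ∀ (b : Q) (z : Z) (x : Ω), b • z • x = z • b • x) (π : Ω → Ω')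
    (hπ : Function.Surjective π) (hππ : ∀ x y, π x = π y ↔ ∃ z : Z, z • x = y)
    (heq : ∀ (b : Q) (x : Ω), π (b • x) = b • π x) :
    ((AT (pcov (Ω := Ω) f β) : ℤ) : ZMod p) = ((AT (pcov (Ω := Ω') f β) : ℤ) : ZMod p) := by
  let A : MulAction Z (W × Ω) :=
    { smul := fun z v => (v.1, z • v.2)
      one_smul := fun v => by
        show (v.1, (1 : Z) • v.2) = v
        rw [one_smul]
      mul_smul := fun a b v => by
        show (v.1, (a * b) • v.2) = (v.1, a • b • v.2)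
        rw [mul_smul] }
  have hsm : ∀ (z : Z) (v : W × Ω), z • v = (v.1, z • v.2) := fun _ _ => rfl
  refine AT_quot p hZ (pcov (Ω := Ω) f β) ?_ (fun v => (v.1, π v.2)) ?_ ?_
    (pcov (Ω := Ω') f β) ?_
  · intro z i v
    rw [hsm, hsm]
    show (f i v.1, β i v.1 • z • v.2) = (f i v.1, z • β i v.1 • v.2)
    rw [hcom]
  · rintro ⟨w, x⟩
    obtain ⟨y, rfl⟩ := hπ x
    exact ⟨(w, y), rfl⟩
  · rintro ⟨w, x⟩ ⟨w', x'⟩
    constructor
    · intro h
      obtain ⟨h1, h2⟩ := Prod.mk.inj h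
      obtain ⟨z, hz⟩ := (hππ _ _).1 h2
      refine ⟨z, ?_⟩
      rw [hsm]
      exact Prod.ext h1 hz
    · rintro ⟨z, hz⟩
      rw [hsm] at hz
      obtain ⟨h1, h2⟩ := Prod.mk.inj hz
      exact Prod.ext h1 ((hππ _ _).2 ⟨z, h2⟩)
  · intro i v
    show (f i v.1, β i v.1 • π v.2) = (f i v.1, π (β i v.1 • v.2))
    rw [heq]

/-- the orbits of a normal subgroup -/
def OQ {Q : Type} [Group Q] (N : Subgroup Q) (Ω : Type) [MulAction Q Ω] : Type :=
  Quotient (MulAction.orbitRel N Ω)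

section
variable {Q Ω : Type} [Group Q] [MulAction Q Ω] (N : Subgroup Q)

/-- the orbit of a point -/
def omk (x : Ω) : OQ N Ω := Quotient.mk _ x

lemma omk_eq (x y : Ω) : omk N x = omk N y ↔ ∃ z ∈ N, z • x = y := by
  have h : (Quotient.mk (MulAction.orbitRel N Ω) x = Quotient.mk (MulAction.orbitRel N Ω) y) ↔
      ∃ z ∈ N, z • x = y := by
    rw [eq_comm, Quotient.eq, MulAction.orbitRel_apply]
    constructor
    · rintro ⟨z, h⟩
      exact ⟨z, z.2, h⟩
    · rintro ⟨z, hz, h⟩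
      exact ⟨⟨z, hz⟩, h⟩
  exact h

lemma omk_surj : Function.Surjective (omk N : Ω → OQ N Ω) := Quotient.exists_rep

noncomputable instance [Finite Ω] : Finite (OQ N Ω) := Finite.of_surjective _ (omk_surj N)

instance oact [hN : N.Normal] : MulAction Q (OQ N Ω) where
  smul b := Quotient.map (fun x => b • x) (by
    intro x y h
    rw [← Quotient.eq_iff_equiv] at h ⊢
    obtain ⟨z, hz, hzx⟩ := (omk_eq N x y).1 h
    refine (omk_eq N (b • x) (b • y)).2 ⟨b * z * b⁻¹, hN.conj_mem z hz b, ?_⟩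
    rw [mul_smul, mul_smul, inv_smul_smul, hzx])
  one_smul := by
    intro x
    obtain ⟨x, rfl⟩ := omk_surj N x
    show omk N ((1 : Q) • x) = omk N x
    rw [one_smul]
  mul_smul := by
    intro a b x
    obtain ⟨x, rfl⟩ := omk_surj N x
    show omk N ((a * b) • x) = omk N (a • b • x)
    rw [mul_smul]

lemma smul_omk [N.Normal] (b : Q) (x : Ω) : b • omk N x = omk N (b • x) := rfl

end

open Classical in
theorem pcov_mod {d : ℕ} (p : ℕ) [Fact p.Prime] {W Q Ω : Type} [Group Q] [Finite Q]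
    [MulAction Q Ω] (hQ : IsPGroup p Q) [Fintype W] [Fintype Ω] (f : Fin d → W → W)
    (β : Fin d → W → Q) :
    ∃ m : ℕ, ((AT (pcov (Ω := Ω) f β) : ℤ) : ZMod p) = ((AT f : ℤ) : ZMod p) ^ m := by
  have := Fintype.ofFinite Q
  let fi : ∀ N : Subgroup Q, Fintype (OQ N Ω) := fun N => Fintype.ofFinite _
  -- one step
  have key : ∀ (N N' : Subgroup Q) (hN : N.Normal) (hN' : N'.Normal), N ≤ N' →
      (∀ x ∈ N', ∀ y : Q, x * y * x⁻¹ * y⁻¹ ∈ N) →
      ((AT (pcov (Ω := OQ N Ω) f β) : ℤ) : ZMod p) =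
        ((AT (pcov (Ω := OQ N' Ω) f β) : ℤ) : ZMod p) := by
    intro N N' hN hN' hle hcomm
    have hlift : ∀ x y : Ω, omk N x = omk N y → omk N' x = omk N' y := by
      intro x y h
      obtain ⟨z, hz, hzx⟩ := (omk_eq N x y).1 h
      exact (omk_eq N' x y).2 ⟨z, hle hz, hzx⟩
    let π : OQ N Ω → OQ N' Ω := Quotient.lift (omk N') (fun x y h => hlift x y (Quotient.sound h))
    have hπ : ∀ x, π (omk N x) = omk N' x := fun _ => rfl
    refine pcov_step p (Z := N') (hQ.to_subgroup N') f β ?_ π ?_ ?_ ?_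
    · intro b z x
      obtain ⟨x, rfl⟩ := omk_surj N x
      show omk N (b • (z : Q) • x) = omk N ((z : Q) • b • x)
      refine (omk_eq N _ _).2 ⟨(z : Q) * b * (z : Q)⁻¹ * b⁻¹, hcomm _ z.2 b, ?_⟩
      rw [← mul_smul, ← mul_smul, ← mul_smul]
      congr 1
      group
    · intro x
      obtain ⟨x, rfl⟩ := omk_surj N' x
      exact ⟨omk N x, rfl⟩
    · intro x y
      obtain ⟨x, rfl⟩ := omk_surj N x
      obtain ⟨y, rfl⟩ := omk_surj N y
      rw [hπ, hπ, omk_eq]
      constructor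
      · rintro ⟨z, hz, rfl⟩
        exact ⟨⟨z, hz⟩, rfl⟩
      · rintro ⟨⟨z, hz⟩, h⟩
        have h' : omk N (z • x) = omk N y := h
        obtain ⟨z', hz', h''⟩ := (omk_eq N _ _).1 h'
        exact ⟨z' * z, N'.mul_mem (hle hz') hz, by rw [mul_smul]; exact h''⟩
    · intro b x
      obtain ⟨x, rfl⟩ := omk_surj N x
      rfl
  have hbot : ((AT (pcov (Ω := Ω) f β) : ℤ) : ZMod p) =
      ((AT (pcov (Ω := OQ (⊥ : Subgroup Q) Ω) f β) : ℤ) : ZMod p) := by
    refine pcov_step p (Z := (⊥ : Subgroup Q)) (hQ.to_subgroup _) f β ?_ (omk ⊥) (omk_surj _)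
      ?_ ?_
    · rintro b ⟨z, hz⟩ x
      rw [Subgroup.mem_bot] at hz
      subst hz
      show b • (1 : Q) • x = (1 : Q) • b • x
      rw [one_smul, one_smul]
    · intro x y
      rw [omk_eq]
      constructor
      · rintro ⟨z, hz, rfl⟩
        exact ⟨⟨z, hz⟩, rfl⟩
      · rintro ⟨z, rfl⟩
        exact ⟨z, z.2, rfl⟩
    · intro b x
      rfl
  have hch : ∀ n : ℕ, ((AT (pcov (Ω := Ω) f β) : ℤ) : ZMod p) =
      ((AT (pcov (Ω := OQ (Subgroup.upperCentralSeries Q n) Ω) f β) : ℤ) : ZMod p) := by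
    intro n
    induction n with
    | zero =>
      have h0 : Subgroup.upperCentralSeries Q 0 = ⊥ := Subgroup.upperCentralSeries_zero Q
      rw [hbot]
      exact key ⊥ _ inferInstance inferInstance bot_le (by
        intro x hx y
        rw [h0, Subgroup.mem_bot] at hx
        subst hx
        simp)
    | succ n ih =>
      rw [ih]
      refine key _ _ inferInstance inferInstance
        (Subgroup.upperCentralSeries_mono Q (Nat.le_succ n)) ?_
      intro x hx y
      exact (Subgroup.mem_upperCentralSeries_succ_iff).1 hx y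
  have hnil : Group.IsNilpotent Q := hQ.isNilpotent
  obtain ⟨n, hn⟩ := hnil.nilpotent
  have htriv : ∀ (b : Q) (x : OQ (Subgroup.upperCentralSeries Q n) Ω), b • x = x := by
    intro b x
    obtain ⟨x, rfl⟩ := omk_surj _ x
    rw [smul_omk]
    exact ((omk_eq _ _ _).2 ⟨b, by rw [hn]; exact Subgroup.mem_top b, rfl⟩).symm
  refine ⟨Fintype.card (OQ (Subgroup.upperCentralSeries Q n) Ω), ?_⟩
  rw [hch n, AT_triv f (pcov (Ω := OQ (Subgroup.upperCentralSeries Q n) Ω) f β)
    (fun i v => by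
      show (f i v.1, β i v.1 • v.2) = (f i v.1, v.2)
      rw [htriv])]
  rw [Int.cast_pow]

end Pool.Agent.TH378.LC
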