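import Pool.Agent.TH378.LCClass
import Pool.Agent.TH413.Cov

/-!
# Pfaffian multigraphs given by a 1-factorization (uses `Pool.Agent.TH413.PF`, `Cov` of helper413)
-/

set_option autoImplicit false

namespace Pool.Agent.TH378.LC

open Finset Pool.Agent.W426.LE Pool.Agent.W862.LE

open Classical in
/-- `o i v = true` if `v` is the tail of the edge with label `i` at `v`; all perfect matchings have
the same sign -/
def PfO {d : ℕ} {V : Type} [Fintype V] (F : Fin d → V → V) (o : Fin d → V → Bool) : Prop :=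
  (∀ i v, o i (F i v) = !(o i v)) ∧
  ∀ c c' : V → Fin d, (∀ v, c (F (c v) v) = c v) → (∀ v, c' (F (c' v) v) = c' v) →
    ∀ π : Equiv.Perm V, (∀ v, π (F (c v) v) = F (c' (π v)) (π v)) →
      (∀ v, o (c' (π v)) (π v) = o (c v) v) → Equiv.Perm.sign π = 1

section

variable {d : ℕ} {V : Type} (idx : V → ℕ) (F : Fin d → V → V) (o : Fin d → V → Bool)

def tlO (e : BE idx F) : V := if o e.1.1 e.1.2 = true then e.1.2 else F e.1.1 e.1.2
def hdO (e : BE idx F) : V := if o e.1.1 e.1.2 = true then F e.1.1 e.1.2 else e.1.2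

variable (hidx : Function.Injective idx) (hinv : ∀ i w, F i (F i w) = w) (hne : ∀ i w, F i w ≠ w)
  (ho : ∀ i v, o i (F i v) = !(o i v))

include ho in
lemma tlO_binc (v : V) (i : Fin d) :
    tlO idx F o (binc idx F hidx hinv hne v i) = if o i v = true then v else F i v := by
  by_cases h : idx v < idx (F i v)
  · rw [binc_pos idx F hidx hinv hne h]; rfl
  · rw [binc_neg idx F hidx hinv hne h]
    show (if o i (F i v) = true then F i v else F i (F i v)) = _
    rw [ho, hinv]
    cases o i v <;> simp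

include ho in
lemma hdO_binc (v : V) (i : Fin d) :
    hdO idx F o (binc idx F hidx hinv hne v i) = if o i v = true then F i v else v := by
  by_cases h : idx v < idx (F i v)
  · rw [binc_pos idx F hidx hinv hne h]; rfl
  · rw [binc_neg idx F hidx hinv hne h]
    show (if o i (F i v) = true then F i (F i v) else F i v) = _
    rw [ho, hinv]
    cases o i v <;> simp

lemma label_binc (v : V) (i : Fin d) : (binc idx F hidx hinv hne v i).1.1 = i := by
  by_cases h : idx v < idx (F i v)
  · rw [binc_pos idx F hidx hinv hne h]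
  · rw [binc_neg idx F hidx hinv hne h]

include ho in
lemma incO : Pool.Agent.TH413.PF.Inc (tlO idx F o) (hdO idx F o)
    (binc idx F hidx hinv hne) := by
  refine ⟨?_, ?_, ?_, ?_⟩
  · rintro ⟨⟨i, w⟩, hw⟩
    show (if o i w = true then w else F i w) ≠ (if o i w = true then F i w else w)
    cases o i w
    · simpa using hne i w
    · simpa using (hne i w).symm
  · intro u i
    rw [tlO_binc idx F o hidx hinv hne ho, hdO_binc idx F o hidx hinv hne ho]
    cases o i u <;> simp
  · rintro u ⟨⟨i, w⟩, hw⟩ hu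
    have h1 : u = w ∨ u = F i w := by
      have h2 : (if o i w = true then w else F i w) = u ∨ (if o i w = true then F i w else w) = u :=
        hu
      cases h3 : o i w <;> rw [h3] at h2 <;> simp at h2 <;> tauto
    refine ⟨i, ?_⟩
    rcases h1 with rfl | rfl
    · exact binc_pos idx F hidx hinv hne hw
    · rw [binc_f]
      exact binc_pos idx F hidx hinv hne hw
  · intro u i j hij
    have h1 := congrArg (fun e : BE idx F => e.1.1) hij
    simp only [label_binc] at h1
    exact h1

include ho in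
/-- the edge of a perfect matching at a vertex -/
lemma pm_choice (M : Set (BE idx F)) (hM : Pool.Agent.TH413.PF.PM (tlO idx F o) (hdO idx F o) M) :
    ∃ c : V → Fin d, (∀ v, c (F (c v) v) = c v) ∧
      (∀ v, binc idx F hidx hinv hne v (c v) ∈ M) ∧
      ∀ v e, e ∈ M → (tlO idx F o e = v ∨ hdO idx F o e = v) →
        e = binc idx F hidx hinv hne v (c v) := by
  have hI := incO idx F o hidx hinv hne ho
  have h1 : ∀ v, ∃ i, binc idx F hidx hinv hne v i ∈ M := by
    intro v
    obtain ⟨e, ⟨he, hu⟩, -⟩ := hM v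
    obtain ⟨i, rfl⟩ := hI.surj v e hu
    exact ⟨i, he⟩
  choose c hc using h1
  have h2 : ∀ v e, e ∈ M → (tlO idx F o e = v ∨ hdO idx F o e = v) →
      e = binc idx F hidx hinv hne v (c v) := by
    intro v e he hu
    exact (hM v).unique ⟨he, hu⟩ ⟨hc v, hI.mem v (c v)⟩
  refine ⟨c, ?_, hc, h2⟩
  intro v
  have h3 := h2 (F (c v) v) (binc idx F hidx hinv hne v (c v)) (hc v) (by
    rw [← binc_f]; exact hI.mem _ _)
  have h4 := congrArg (fun e : BE idx F => e.1.1) h3
  simp only [label_binc] at h4
  exact h4.symm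

open Classical in
include hidx hinv hne ho in
theorem pfaff_transfer [Fintype V] (hpf : PfO F o) :
    Pool.Agent.TH413.PF.Pfaffian (tlO idx F o) (hdO idx F o) := by
  intro M M' hM hM' φ π hπ
  obtain ⟨c, hc1, hc2, hc3⟩ := pm_choice idx F o hidx hinv hne ho M hM
  obtain ⟨c', hc1', hc2', hc3'⟩ := pm_choice idx F o hidx hinv hne ho M' hM'
  have key : ∀ v, π (F (c v) v) = F (c' (π v)) (π v) ∧ o (c' (π v)) (π v) = o (c v) v := by
    intro v
    obtain ⟨h1, h2⟩ := hπ ⟨_, hc2 v⟩
    rw [tlO_binc idx F o hidx hinv hne ho] at h1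
    rw [hdO_binc idx F o hidx hinv hne ho] at h2
    cases h3 : o (c v) v
    · rw [h3] at h1 h2
      simp only [Bool.false_eq_true, if_false] at h1 h2
      have h4 := hc3' (π v) (φ ⟨_, hc2 v⟩).1 (φ ⟨_, hc2 v⟩).2 (Or.inr h2.symm)
      rw [h4, tlO_binc idx F o hidx hinv hne ho] at h1
      rw [h4, hdO_binc idx F o hidx hinv hne ho] at h2
      cases h5 : o (c' (π v)) (π v)
      · rw [h5] at h1
        simp only [Bool.false_eq_true, if_false] at h1
        exact ⟨h1, rfl⟩
      · rw [h5] at h2
        simp only [if_true] at h2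
        exact absurd h2.symm (hne _ _)
    · rw [h3] at h1 h2
      simp only [if_true] at h1 h2
      have h4 := hc3' (π v) (φ ⟨_, hc2 v⟩).1 (φ ⟨_, hc2 v⟩).2 (Or.inl h1.symm)
      rw [h4, tlO_binc idx F o hidx hinv hne ho] at h1
      rw [h4, hdO_binc idx F o hidx hinv hne ho] at h2
      cases h5 : o (c' (π v)) (π v)
      · rw [h5] at h1
        simp only [Bool.false_eq_true, if_false] at h1
        exact absurd h1.symm (hne _ _)
      · rw [h5] at h2
        simp only [if_true] at h2
        exact ⟨h2, rfl⟩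
  convert hpf.2 c c' hc1 hc1' π (fun v => (key v).1) (fun v => (key v).2)

include hidx hinv hne ho in
theorem card_cons [Finite V] :
    Nat.card {x : BE idx F → Fin d // Pool.Agent.TH413.Cov.Proper (tlO idx F o) (hdO idx F o) x} =
      Nat.card {σ : V → Equiv.Perm (Fin d) // Cons F σ} := by
  have hI := incO idx F o hidx hinv hne ho
  have hpr : ∀ x : BE idx F → Fin d, Abs.Prp (binc idx F hidx hinv hne) x ↔
      Pool.Agent.TH413.Cov.Proper (tlO idx F o) (hdO idx F o) x := fun x =>
    Pool.Agent.TH413.Cov.proper_iff hI (Equiv.refl _) x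
  refine Nat.card_congr
    { toFun := fun x => ⟨fun v => Equiv.ofBijective _ ((hpr x.1).2 x.2 v), ?_⟩
      invFun := fun σ => ⟨fun e => σ.1 e.1.2 e.1.1, ?_⟩
      left_inv := ?_
      right_inv := ?_ }
  · intro v i
    show x.1 (binc idx F hidx hinv hne (F i v) i) = x.1 (binc idx F hidx hinv hne v i)
    rw [binc_f]
  · rw [← hpr]
    intro v
    have h1 : (fun i => (fun e : BE idx F => σ.1 e.1.2 e.1.1) (binc idx F hidx hinv hne v i)) =
        (σ.1 v : Fin d → Fin d) := by
      funext i
      by_cases h : idx v < idx (F i v)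
      · rw [binc_pos idx F hidx hinv hne h]
      · rw [binc_neg idx F hidx hinv hne h]
        exact σ.2 v i
    rw [h1]
    exact (σ.1 v).bijective
  · intro x
    refine Subtype.ext ?_
    funext e
    show x.1 (binc idx F hidx hinv hne e.1.2 e.1.1) = x.1 e
    rw [binc_pos idx F hidx hinv hne e.2]
  · intro σ
    refine Subtype.ext ?_
    funext v
    ext i
    show ((σ.1 (binc idx F hidx hinv hne v i).1.2 (binc idx F hidx hinv hne v i).1.1 : Fin d) : ℕ) =
      σ.1 v i
    by_cases h : idx v < idx (F i v)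
    · rw [binc_pos idx F hidx hinv hne h]
    · rw [binc_neg idx F hidx hinv hne h]
      exact congrArg Fin.val (σ.2 v i)

end

/-- Pfaffian multigraphs -/
theorem pf_not_dvd {d : ℕ} {V : Type} [Fintype V] (F : Fin d → V → V) (o : Fin d → V → Bool)
    (hinv : ∀ i w, F i (F i w) = w) (hne : ∀ i w, F i w ≠ w) (hpf : PfO F o) (p : ℕ)
    (hp : ¬ p ∣ Nat.card {σ : V → Equiv.Perm (Fin d) // Cons F σ}) : ¬ ((p : ℤ) ∣ AT F) := by
  classical
  obtain ⟨n, ⟨e0⟩⟩ := Finite.exists_equiv_fin V
  let idx : V → ℕ := fun w => (e0 w : ℕ)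
  have hidx : Function.Injective idx := fun a b h => e0.injective (Fin.ext h)
  have h1 := pfaff_transfer idx F o hidx hinv hne hpf.1 hpf
  have h2 := incO idx F o hidx hinv hne hpf.1
  have h3 := Pool.Agent.TH413.Cov.NN_not_dvd (Equiv.refl (Fin d)) h2 h1 p (by
    rw [card_cons idx F o hidx hinv hne hpf.1]
    exact hp)
  rwa [NN_binc] at h3

end Pool.Agent.TH378.LC
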