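import Pool.Agent.TH378.LCGraph

/-!
# Signed counts of spliced multigraphs
-/

set_option autoImplicit false

namespace Pool.Agent.TH378.LC

open Finset

lemma even_of_inv {V : Type} [Fintype V] (g : V → V) (h : ∀ v, g (g v) = v)
    (hne : ∀ v, g v ≠ v) : Even (Fintype.card V) := by
  classical
  let e : Function.End V := g
  have h1 : e ^ (2 ^ 1) = 1 := by
    rw [pow_one, pow_two]
    funext w
    exact h w
  have : Fact (Nat.Prime 2) := ⟨Nat.prime_two⟩
  have h2 := Equiv.Perm.card_fixedPoints_modEq (p := 2) (n := 1) h1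
  have h3 : Fintype.card (Function.fixedPoints e) = 0 := by
    rw [Fintype.card_eq_zero_iff]
    exact ⟨fun x => hne x.1 x.2⟩
  rw [h3] at h2
  exact Nat.even_iff.2 h2

/-- splicing at the vertices `none` -/
def splice {d : ℕ} {W1 W2 : Type} (f1 : Fin d → Option W1 → Option W1)
    (f2 : Fin d → Option W2 → Option W2) : Fin d → W1 ⊕ W2 → W1 ⊕ W2 := fun i v =>
  match v with
  | Sum.inl w => match f1 i (some w) with
    | some w' => Sum.inl w'
    | none => match f2 i none with
      | some b => Sum.inr b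
      | none => Sum.inl w
  | Sum.inr w => match f2 i (some w) with
    | some w' => Sum.inr w'
    | none => match f1 i none with
      | some a => Sum.inl a
      | none => Sum.inr w

section

variable {d : ℕ} {W1 W2 : Type} (f1 : Fin d → Option W1 → Option W1)
    (f2 : Fin d → Option W2 → Option W2)

lemma splice_inl_some {i : Fin d} {w w' : W1} (h : f1 i (some w) = some w') :
    splice f1 f2 i (Sum.inl w) = Sum.inl w' := by
  simp only [splice, h]

lemma splice_inl_none {i : Fin d} {w : W1} {b : W2} (h : f1 i (some w) = none)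
    (hb : f2 i none = some b) : splice f1 f2 i (Sum.inl w) = Sum.inr b := by
  simp only [splice, h, hb]

lemma splice_inr_some {i : Fin d} {w w' : W2} (h : f2 i (some w) = some w') :
    splice f1 f2 i (Sum.inr w) = Sum.inr w' := by
  simp only [splice, h]

lemma splice_inr_none {i : Fin d} {w : W2} {a : W1} (h : f2 i (some w) = none)
    (ha : f1 i none = some a) : splice f1 f2 i (Sum.inr w) = Sum.inl a := by
  simp only [splice, h, ha]

variable (hi1 : ∀ i w, f1 i (f1 i w) = w) (hn1 : ∀ i w, f1 i w ≠ w)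
  (hi2 : ∀ i w, f2 i (f2 i w) = w) (hn2 : ∀ i w, f2 i w ≠ w)

include hn1 in
lemma exists_a (i : Fin d) : ∃ a, f1 i none = some a := by
  cases h : f1 i none with
  | none => exact absurd h (hn1 i none)
  | some a => exact ⟨a, rfl⟩

include hi1 hn1 hi2 hn2 in
lemma splice_inv (i : Fin d) (v : W1 ⊕ W2) : splice f1 f2 i (splice f1 f2 i v) = v := by
  obtain ⟨a, ha⟩ := exists_a f1 hn1 i
  obtain ⟨b, hb⟩ := exists_a f2 hn2 i
  rcases v with w | w
  · cases h : f1 i (some w) with
    | some w' =>
      rw [splice_inl_some f1 f2 h]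
      exact splice_inl_some f1 f2 (by rw [← h, hi1])
    | none =>
      rw [splice_inl_none f1 f2 h hb]
      have h1 : f2 i (some b) = none := by rw [← hb, hi2]
      rw [splice_inr_none f1 f2 h1 ha]
      have h2 : f1 i none = some w := by rw [← h, hi1]
      rw [ha] at h2
      rw [Option.some.inj h2]
  · cases h : f2 i (some w) with
    | some w' =>
      rw [splice_inr_some f1 f2 h]
      exact splice_inr_some f1 f2 (by rw [← h, hi2])
    | none =>
      rw [splice_inr_none f1 f2 h ha]
      have h1 : f1 i (some a) = none := by rw [← ha, hi1]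
      rw [splice_inl_none f1 f2 h1 hb]
      have h2 : f2 i none = some w := by rw [← h, hi2]
      rw [hb] at h2
      rw [Option.some.inj h2]

include hn1 hn2 in
lemma splice_ne (i : Fin d) (v : W1 ⊕ W2) : splice f1 f2 i v ≠ v := by
  obtain ⟨a, ha⟩ := exists_a f1 hn1 i
  obtain ⟨b, hb⟩ := exists_a f2 hn2 i
  rcases v with w | w
  · cases h : f1 i (some w) with
    | some w' =>
      rw [splice_inl_some f1 f2 h]
      intro h'
      rw [Sum.inl.injEq] at h'
      subst h'
      exact hn1 i _ h
    | none =>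
      rw [splice_inl_none f1 f2 h hb]
      exact Sum.inr_ne_inl
  · cases h : f2 i (some w) with
    | some w' =>
      rw [splice_inr_some f1 f2 h]
      intro h'
      rw [Sum.inr.injEq] at h'
      subst h'
      exact hn2 i _ h
    | none =>
      rw [splice_inr_none f1 f2 h ha]
      exact Sum.inl_ne_inr

/-- extension by a permutation at `none` -/
def ext {W : Type} (κ : Equiv.Perm (Fin d)) (σ : W → Equiv.Perm (Fin d)) :
    Option W → Equiv.Perm (Fin d) := fun o => o.elim κ σ

open Classical in
/-- signed number of the colourings with given colours at `none` -/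
noncomputable def AK {W : Type} [Fintype W] (f : Fin d → Option W → Option W)
    (κ : Equiv.Perm (Fin d)) : ℤ :=
  ∑ σ : W → Equiv.Perm (Fin d), if Cons f (ext κ σ) then
    ∏ w, ((Equiv.Perm.sign (σ w) : ℤˣ) : ℤ) else 0

open Classical in
lemma AT_eq_sum {W : Type} [Fintype W] (f : Fin d → Option W → Option W) :
    AT f = ∑ κ, ((Equiv.Perm.sign κ : ℤˣ) : ℤ) * AK f κ := by
  unfold AT AK
  rw [Finset.sum_filter]
  simp only [Finset.mul_sum]
  rw [← Fintype.sum_prod_type']
  let e : (Option W → Equiv.Perm (Fin d)) ≃ Equiv.Perm (Fin d) × (W → Equiv.Perm (Fin d)) :=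
    { toFun := fun σ => (σ none, fun w => σ (some w))
      invFun := fun x => ext x.1 x.2
      left_inv := fun σ => by
        funext o
        cases o <;> rfl
      right_inv := fun x => rfl }
  refine (Finset.sum_congr (by ext σ; simp) fun _ _ => rfl).trans
    (Fintype.sum_equiv e (fun σ : Option W → Equiv.Perm (Fin d) => if Cons f σ then
    ∏ v, ((Equiv.Perm.sign (σ v) : ℤˣ) : ℤ) else 0) _ ?_)
  intro σ
  have h1 : ext (σ none) (fun w => σ (some w)) = σ := e.left_inv σ
  show (if Cons f σ then ∏ v, ((Equiv.Perm.sign (σ v) : ℤˣ) : ℤ) else 0) =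
    ((Equiv.Perm.sign (σ none) : ℤˣ) : ℤ) * (if Cons f (ext (σ none) (fun w => σ (some w))) then
      ∏ w, ((Equiv.Perm.sign (σ (some w)) : ℤˣ) : ℤ) else 0)
  rw [h1]
  split_ifs
  · rw [Fintype.prod_option]
  · rw [mul_zero]

open Classical in
lemma AK_eq {W : Type} [Fintype W] (hW : Odd (Fintype.card W))
    (f : Fin d → Option W → Option W) (κ : Equiv.Perm (Fin d)) :
    AK f κ = ((Equiv.Perm.sign κ : ℤˣ) : ℤ) * AK f 1 := by
  unfold AK
  rw [Finset.mul_sum]
  let e : (W → Equiv.Perm (Fin d)) ≃ (W → Equiv.Perm (Fin d)) :=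
    { toFun := fun σ w => κ⁻¹ * σ w
      invFun := fun σ w => κ * σ w
      left_inv := fun σ => by funext w; simp
      right_inv := fun σ => by funext w; simp }
  refine Fintype.sum_equiv e _ _ ?_
  intro σ
  have h1 : ∀ o, ext 1 (e σ) o = κ⁻¹ * ext κ σ o := by
    intro o
    cases o
    · show 1 = κ⁻¹ * κ
      simp
    · rfl
  have h2 : Cons f (ext κ σ) ↔ Cons f (ext 1 (e σ)) := by
    unfold Cons
    simp only [h1, Equiv.Perm.mul_apply, EmbeddingLike.apply_eq_iff_eq]
  by_cases hc : Cons f (ext κ σ)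
  · rw [if_pos hc, if_pos (h2.1 hc)]
    have h3 : ∀ w, ((Equiv.Perm.sign (e σ w) : ℤˣ) : ℤ) =
        ((Equiv.Perm.sign κ : ℤˣ) : ℤ) * ((Equiv.Perm.sign (σ w) : ℤˣ) : ℤ) := by
      intro w
      show ((Equiv.Perm.sign (κ⁻¹ * σ w) : ℤˣ) : ℤ) = _
      rw [map_mul, Equiv.Perm.sign_inv, Units.val_mul]
    simp only [h3]
    rw [Finset.prod_mul_distrib, Finset.prod_const, Finset.card_univ]
    obtain ⟨m, hm⟩ := hW
    have h4 : ((Equiv.Perm.sign κ : ℤˣ) : ℤ) * ((Equiv.Perm.sign κ : ℤˣ) : ℤ) = 1 := by
      rw [← Units.val_mul, Int.units_mul_self, Units.val_one]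
    have h5 : ((Equiv.Perm.sign κ : ℤˣ) : ℤ) ^ Fintype.card W = ((Equiv.Perm.sign κ : ℤˣ) : ℤ) := by
      rw [hm, pow_succ, pow_mul, pow_two, h4, one_pow, one_mul]
    rw [h5, ← mul_assoc, h4, one_mul]
  · rw [if_neg hc, if_neg (fun h => hc (h2.2 h)), mul_zero]

open Classical in
lemma AT_eq_fact {W : Type} [Fintype W] (hW : Odd (Fintype.card W))
    (f : Fin d → Option W → Option W) : AT f = (Nat.factorial d : ℤ) * AK f 1 := by
  rw [AT_eq_sum]
  have h4 : ∀ κ : Equiv.Perm (Fin d),
      ((Equiv.Perm.sign κ : ℤˣ) : ℤ) * AK f κ = AK f 1 := by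
    intro κ
    rw [AK_eq hW, ← mul_assoc, ← Units.val_mul, Int.units_mul_self, Units.val_one, one_mul]
  rw [Finset.sum_congr rfl (fun κ _ => h4 κ), Finset.sum_const, Finset.card_univ,
    Fintype.card_perm, Fintype.card_fin, nsmul_eq_mul]

include hi1 hn1 hi2 hn2 in
lemma cons_splice [Fintype W1] (hW : Odd (Fintype.card W1)) (σ : W1 ⊕ W2 → Equiv.Perm (Fin d)) :
    Cons (splice f1 f2) σ ↔ ∃ κ : Equiv.Perm (Fin d),
      Cons f1 (ext κ (fun w => σ (Sum.inl w))) ∧ Cons f2 (ext κ (fun w => σ (Sum.inr w))) := by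
  classical
  choose a ha using exists_a f1 hn1
  choose b hb using exists_a f2 hn2
  have ha' : ∀ i, f1 i (some (a i)) = none := fun i => by rw [← ha, hi1]
  have hb' : ∀ i, f2 i (some (b i)) = none := fun i => by rw [← hb, hi2]
  have haw : ∀ i w, f1 i (some w) = none → w = a i := by
    intro i w h
    have h2 : f1 i none = some w := by rw [← h, hi1]
    rw [ha] at h2
    exact (Option.some.inj h2).symm
  have hbw : ∀ i w, f2 i (some w) = none → w = b i := by
    intro i w h
    have h2 : f2 i none = some w := by rw [← h, hi2]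
    rw [hb] at h2
    exact (Option.some.inj h2).symm
  constructor
  · intro hσ
    have hsurj : Function.Surjective (fun i => σ (Sum.inl (a i)) i) := by
      by_contra hns
      unfold Function.Surjective at hns
      push Not at hns
      obtain ⟨c, hc⟩ := hns
      have hex : ∀ w : W1, ∃ w', f1 ((σ (Sum.inl w))⁻¹ c) (some w) = some w' := by
        intro w
        cases h : f1 ((σ (Sum.inl w))⁻¹ c) (some w) with
        | some w' => exact ⟨w', rfl⟩
        | none =>
          exfalso
          have h1 := haw _ _ h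
          apply hc ((σ (Sum.inl w))⁻¹ c)
          rw [← h1]
          simp
      choose g hg using hex
      have hgσ : ∀ w, (σ (Sum.inl (g w)))⁻¹ c = (σ (Sum.inl w))⁻¹ c := by
        intro w
        have h1 := hσ (Sum.inl w) ((σ (Sum.inl w))⁻¹ c)
        rw [splice_inl_some f1 f2 (hg w)] at h1
        rw [Equiv.Perm.inv_eq_iff_eq, h1]
        simp
      have h1 := even_of_inv g (by
        intro w
        have h2 := hg (g w)
        rw [hgσ, ← hg w, hi1] at h2
        exact (Option.some.inj h2).symm) (by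
        intro w h
        have h2 := hg w
        rw [h] at h2
        exact hn1 _ _ h2)
      exact (Nat.not_even_iff_odd.2 hW) h1
    let κ : Equiv.Perm (Fin d) := Equiv.ofBijective _ (Finite.surjective_iff_bijective.1 hsurj)
    have hκ : ∀ i, κ i = σ (Sum.inl (a i)) i := fun _ => rfl
    have hκ' : ∀ i, κ i = σ (Sum.inr (b i)) i := by
      intro i
      have h1 := hσ (Sum.inl (a i)) i
      rw [splice_inl_none f1 f2 (ha' i) (hb i)] at h1
      rw [hκ, h1]
    refine ⟨κ, ?_, ?_⟩
    · intro o i
      cases o with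
      | none =>
        rw [ha]
        exact (hκ i).symm
      | some w =>
        cases h : f1 i (some w) with
        | none =>
          have h1 := haw i w h
          subst h1
          exact hκ i
        | some w' =>
          have h1 := hσ (Sum.inl w) i
          rw [splice_inl_some f1 f2 h] at h1
          exact h1
    · intro o i
      cases o with
      | none =>
        rw [hb]
        exact (hκ' i).symm
      | some w =>
        cases h : f2 i (some w) with
        | none =>
          have h1 := hbw i w h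
          subst h1
          exact hκ' i
        | some w' =>
          have h1 := hσ (Sum.inr w) i
          rw [splice_inr_some f1 f2 h] at h1
          exact h1
  · rintro ⟨κ, h1, h2⟩
    have k1 : ∀ i, σ (Sum.inl (a i)) i = κ i := by
      intro i
      have h3 := h1 none i
      rw [ha] at h3
      exact h3
    have k2 : ∀ i, σ (Sum.inr (b i)) i = κ i := by
      intro i
      have h3 := h2 none i
      rw [hb] at h3
      exact h3
    intro v i
    rcases v with w | w
    · cases h : f1 i (some w) with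
      | none =>
        have h3 := haw i w h
        subst h3
        rw [splice_inl_none f1 f2 h (hb i), k1, k2]
      | some w' =>
        rw [splice_inl_some f1 f2 h]
        have h3 := h1 (some w) i
        rw [h] at h3
        exact h3
    · cases h : f2 i (some w) with
      | none =>
        have h3 := hbw i w h
        subst h3
        rw [splice_inr_none f1 f2 h (ha i), k1, k2]
      | some w' =>
        rw [splice_inr_some f1 f2 h]
        have h3 := h2 (some w) i
        rw [h] at h3
        exact h3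

include hn1 in
lemma kappa_unique (σ : W1 → Equiv.Perm (Fin d)) (κ κ' : Equiv.Perm (Fin d))
    (h : Cons f1 (ext κ σ)) (h' : Cons f1 (ext κ' σ)) : κ = κ' := by
  ext i
  obtain ⟨a, ha⟩ := exists_a f1 hn1 i
  have h1 := h none i
  have h2 := h' none i
  rw [ha] at h1 h2
  have h3 : κ i = σ a i := h1.symm
  have h4 : κ' i = σ a i := h2.symm
  rw [h3, h4]

include hi1 hn1 hi2 hn2 in
open Classical in
theorem AT_splice [Fintype W1] [Fintype W2] (hd : 1 ≤ d) :
    (Nat.factorial d : ℤ) * AT (splice f1 f2) = AT f1 * AT f2 := by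
  let i0 : Fin d := ⟨0, by omega⟩
  have odd1 : Odd (Fintype.card W1) := by
    have := even_of_inv (f1 i0) (hi1 i0) (hn1 i0)
    rw [Fintype.card_option] at this
    exact Nat.not_even_iff_odd.1 (fun h => (Nat.even_add_one.1 this) h)
  have odd2 : Odd (Fintype.card W2) := by
    have := even_of_inv (f2 i0) (hi2 i0) (hn2 i0)
    rw [Fintype.card_option] at this
    exact Nat.not_even_iff_odd.1 (fun h => (Nat.even_add_one.1 this) h)
  have key : AT (splice f1 f2) = ∑ κ, AK f1 κ * AK f2 κ := by
    unfold AT AK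
    rw [Finset.sum_filter]
    let e : (W1 ⊕ W2 → Equiv.Perm (Fin d)) ≃
        (W1 → Equiv.Perm (Fin d)) × (W2 → Equiv.Perm (Fin d)) :=
      Equiv.sumArrowEquivProdArrow W1 W2 (Equiv.Perm (Fin d))
    refine (Finset.sum_congr (by ext σ; simp) fun _ _ => rfl).trans
      ((Fintype.sum_equiv e (fun σ : W1 ⊕ W2 → Equiv.Perm (Fin d) => if Cons (splice f1 f2) σ then
      ∏ v, ((Equiv.Perm.sign (σ v) : ℤˣ) : ℤ) else 0)
      (fun x => ∑ κ : Equiv.Perm (Fin d),
        (if Cons f1 (ext κ x.1) then ∏ w, ((Equiv.Perm.sign (x.1 w) : ℤˣ) : ℤ) else 0) *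
        (if Cons f2 (ext κ x.2) then ∏ w, ((Equiv.Perm.sign (x.2 w) : ℤˣ) : ℤ) else 0)) ?_).trans ?_)
    · intro σ
      show (if Cons (splice f1 f2) σ then ∏ v, ((Equiv.Perm.sign (σ v) : ℤˣ) : ℤ) else 0) =
        ∑ κ : Equiv.Perm (Fin d),
        (if Cons f1 (ext κ (fun w => σ (Sum.inl w))) then
          ∏ w, ((Equiv.Perm.sign (σ (Sum.inl w)) : ℤˣ) : ℤ) else 0) *
        (if Cons f2 (ext κ (fun w => σ (Sum.inr w))) then
          ∏ w, ((Equiv.Perm.sign (σ (Sum.inr w)) : ℤˣ) : ℤ) else 0)
      by_cases hc : Cons (splice f1 f2) σ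
      · rw [if_pos hc, Fintype.prod_sum_type]
        obtain ⟨κ, hκ1, hκ2⟩ := (cons_splice f1 f2 hi1 hn1 hi2 hn2 odd1 σ).1 hc
        rw [Finset.sum_eq_single κ]
        · rw [if_pos hκ1, if_pos hκ2]
        · intro κ' _ hne
          rw [if_neg (fun h => hne (kappa_unique f1 hn1 _ κ' κ h hκ1)), zero_mul]
        · intro h
          exact absurd (Finset.mem_univ κ) h
      · rw [if_neg hc]
        symm
        refine Finset.sum_eq_zero fun κ _ => ?_
        by_cases h1 : Cons f1 (ext κ (fun w => σ (Sum.inl w)))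
        · by_cases h2 : Cons f2 (ext κ (fun w => σ (Sum.inr w)))
          · exact absurd ((cons_splice f1 f2 hi1 hn1 hi2 hn2 odd1 σ).2 ⟨κ, h1, h2⟩) hc
          · rw [if_neg h2, mul_zero]
        · rw [if_neg h1, zero_mul]
    · rw [Finset.sum_comm]
      refine Finset.sum_congr rfl fun κ _ => ?_
      rw [Finset.sum_mul_sum, Fintype.sum_prod_type]
  rw [key, AT_eq_fact odd1, AT_eq_fact odd2]
  have h4 : ∀ κ : Equiv.Perm (Fin d), AK f1 κ * AK f2 κ = AK f1 1 * AK f2 1 := by
    intro κ
    rw [AK_eq odd1, AK_eq odd2]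
    have h5 : ((Equiv.Perm.sign κ : ℤˣ) : ℤ) * ((Equiv.Perm.sign κ : ℤˣ) : ℤ) = 1 := by
      rw [← Units.val_mul, Int.units_mul_self, Units.val_one]
    linear_combination (AK f1 1 * AK f2 1) * h5
  rw [Finset.sum_congr rfl (fun κ _ => h4 κ), Finset.sum_const, Finset.card_univ,
    Fintype.card_perm, Fintype.card_fin, nsmul_eq_mul]
  ring

end

end Pool.Agent.TH378.LC
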