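import Pool.Agent.TH378.LCBase

/-!
# The signed count when the 1-factorization is essentially unique
-/

set_option autoImplicit false

namespace Pool.Agent.TH378.LC

open Finset

section blocks

variable {α β : Type} [Fintype α] [DecidableEq α] [DecidableEq β]

/-- the permutation `τ` on the blocks in `S`, the identity elsewhere -/
def blk (h : α → β) (τ : Equiv.Perm α) (hτ : ∀ i, h (τ i) = h i) (S : Finset β) :
    Equiv.Perm α where
  toFun i := if h i ∈ S then τ i else i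
  invFun i := if h i ∈ S then τ⁻¹ i else i
  left_inv i := by
    by_cases hi : h i ∈ S
    · simp [hi, hτ]
    · simp [hi]
  right_inv i := by
    have h' : h (τ⁻¹ i) = h i := by
      rw [← hτ (τ⁻¹ i)]; simp
    by_cases hi : h i ∈ S
    · show (if h (if h i ∈ S then τ⁻¹ i else i) ∈ S then τ (if h i ∈ S then τ⁻¹ i else i)
        else (if h i ∈ S then τ⁻¹ i else i)) = i
      rw [if_pos hi, if_pos (by rw [h']; exact hi)]
      simp
    · simp [hi]

omit [Fintype α] [DecidableEq α] in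
lemma blk_apply (h : α → β) (τ : Equiv.Perm α) (hτ : ∀ i, h (τ i) = h i) (S : Finset β) (i : α) :
    blk h τ hτ S i = if h i ∈ S then τ i else i := rfl

omit [Fintype α] [DecidableEq α] in
lemma blk_insert (h : α → β) (τ : Equiv.Perm α) (hτ : ∀ i, h (τ i) = h i) (S : Finset β) (b : β)
    (hb : b ∉ S) : blk h τ hτ (insert b S) = blk h τ hτ {b} * blk h τ hτ S := by
  ext i
  rw [Equiv.Perm.mul_apply, blk_apply, blk_apply, blk_apply]
  by_cases h1 : h i ∈ S
  · have h2 : h i ≠ b := fun h' => hb (h' ▸ h1)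
    simp [h1, hτ, h2]
  · by_cases h2 : h i = b
    · simp [h2, hb]
    · simp [h1, h2]

theorem sign_blk (h : α → β) (τ : Equiv.Perm α) (hτ : ∀ i, h (τ i) = h i) (S : Finset β) :
    Equiv.Perm.sign (blk h τ hτ S) = ∏ b ∈ S, Equiv.Perm.sign (blk h τ hτ {b}) := by
  induction S using Finset.induction_on with
  | empty =>
    have : blk h τ hτ ∅ = 1 := by
      ext i; rw [blk_apply]; simp
    rw [this]; simp
  | insert b S hb ih =>
    rw [blk_insert h τ hτ S b hb, map_mul, ih, Finset.prod_insert hb]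

theorem sign_eq_prod [Fintype β] (h : α → β) (τ : Equiv.Perm α) (hτ : ∀ i, h (τ i) = h i) :
    Equiv.Perm.sign τ = ∏ b, Equiv.Perm.sign (blk h τ hτ {b}) := by
  rw [← sign_blk]
  congr 1
  ext i; rw [blk_apply]; simp

end blocks

section

variable {d : ℕ} {W : Type} (f : Fin d → W → W)

/-- consistent families that permute parallel edges -/
def TT : Subgroup (W → Equiv.Perm (Fin d)) where
  carrier := {τ | (∀ v i, f (τ v i) v = f i v) ∧ ∀ v i, τ (f i v) i = τ v i}
  one_mem' := ⟨fun v i => rfl, fun v i => rfl⟩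
  mul_mem' := by
    rintro a b ⟨ha1, ha2⟩ ⟨hb1, hb2⟩
    refine ⟨fun v i => ?_, fun v i => ?_⟩
    · show f (a v (b v i)) v = f i v
      rw [ha1, hb1]
    · show a (f i v) (b (f i v) i) = a v (b v i)
      rw [hb2, ← hb1 v i, ha2]
  inv_mem' := by
    rintro a ⟨ha1, ha2⟩
    refine ⟨fun v i => ?_, fun v i => ?_⟩
    · show f ((a v)⁻¹ i) v = f i v
      rw [← ha1 v ((a v)⁻¹ i)]
      simp
    · show (a (f i v))⁻¹ i = (a v)⁻¹ i
      rw [Equiv.Perm.inv_eq_iff_eq]
      have h1 : f i v = f ((a v)⁻¹ i) v := by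
        rw [← ha1 v ((a v)⁻¹ i)]
        simp
      rw [h1, ha2]
      simp

lemma mem_TT (τ : W → Equiv.Perm (Fin d)) :
    τ ∈ TT f ↔ (∀ v i, f (τ v i) v = f i v) ∧ ∀ v i, τ (f i v) i = τ v i := Iff.rfl

variable (hinv : ∀ i w, f i (f i w) = w) (hne : ∀ i w, f i w ≠ w)

include hinv hne in
open Classical in
theorem sign_TT [Fintype W] (τ : W → Equiv.Perm (Fin d)) (hτ : τ ∈ TT f) :
    ∏ v, Equiv.Perm.sign (τ v) = 1 := by
  obtain ⟨h1, h2⟩ := (mem_TT f τ).1 hτ
  have e1 : ∏ v, Equiv.Perm.sign (τ v) =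
      ∏ v, ∏ w, Equiv.Perm.sign (blk (fun i => f i v) (τ v) (h1 v) {w}) :=
    Finset.prod_congr rfl fun v _ => sign_eq_prod _ _ _
  rw [e1, ← Finset.prod_product']
  refine Finset.prod_involution (fun a _ => (a.2, a.1)) ?_ ?_ (fun _ _ => by simp) (fun _ _ => rfl)
  · rintro ⟨v, w⟩ -
    have e2 : blk (fun i => f i w) (τ w) (h1 w) {v} = blk (fun i => f i v) (τ v) (h1 v) {w} := by
      ext i
      rw [blk_apply, blk_apply]
      by_cases h : f i v = w
      · have h' : f i w = v := by rw [← h, hinv]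
        simp only [h, h', mem_singleton, if_true]
        rw [← h, h2]
      · have h' : ¬ f i w = v := by
          intro h'; apply h; rw [← h', hinv]
        simp [h, h']
    show Equiv.Perm.sign (blk (fun i => f i v) (τ v) (h1 v) {w}) *
      Equiv.Perm.sign (blk (fun i => f i w) (τ w) (h1 w) {v}) = 1
    rw [e2, Int.units_mul_self]
  · rintro ⟨v, w⟩ - hs heq
    apply hs
    have hvw : w = v := congrArg Prod.fst heq
    subst hvw
    have : blk (fun i => f i w) (τ w) (h1 w) {w} = 1 := by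
      ext i
      rw [blk_apply]
      simp [hne i w]
    show Equiv.Perm.sign (blk (fun i => f i w) (τ w) (h1 w) {w}) = 1
    rw [this, map_one]

/-- the 1-factorization is unique up to exchanging parallel edges -/
def UNIQ : Prop := ∀ g : Fin d → W → W, (∀ i w, g i (g i w) = w) →
  (∀ v w, Nat.card {i // g i v = w} = Nat.card {i // f i v = w}) →
  ∃ π : Equiv.Perm (Fin d), ∀ i, g (π i) = f i

include hinv in
theorem exists_pi (hU : UNIQ f) (σ : W → Equiv.Perm (Fin d)) (hσ : Cons f σ) :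
    ∃ π : Equiv.Perm (Fin d), (fun v => (σ v)⁻¹ * π) ∈ TT f := by
  have key : ∀ v j, σ (f j v) j = σ v j := hσ
  have ha : ∀ c v, f ((σ (f ((σ v)⁻¹ c) v))⁻¹ c) (f ((σ v)⁻¹ c) v) = v := by
    intro c v
    have h1 : (σ (f ((σ v)⁻¹ c) v))⁻¹ c = (σ v)⁻¹ c := by
      rw [Equiv.Perm.inv_eq_iff_eq, key]
      simp
    rw [h1, hinv]
  have hb : ∀ v w, Nat.card {c // f ((σ v)⁻¹ c) v = w} = Nat.card {i // f i v = w} := by
    intro v w
    refine Nat.card_congr ⟨fun c => ⟨(σ v)⁻¹ c.1, c.2⟩, fun i => ⟨σ v i.1, ?_⟩, ?_, ?_⟩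
    · show f ((σ v)⁻¹ (σ v i.1)) v = w
      simpa using i.2
    · intro c; simp
    · intro i; simp
  obtain ⟨π, hπ⟩ := hU (fun c v => f ((σ v)⁻¹ c) v) ha hb
  have h1 : ∀ v i, f ((σ v)⁻¹ (π i)) v = f i v := fun v i => congrFun (hπ i) v
  refine ⟨π, h1, ?_⟩
  intro v i
  show (σ (f i v))⁻¹ (π i) = (σ v)⁻¹ (π i)
  rw [Equiv.Perm.inv_eq_iff_eq, ← h1 v i, key]
  simp

include hinv hne in
open Classical in
theorem AT_not_dvd [Fintype W] (hd : 1 ≤ d) (hU : UNIQ f) (p : ℕ) (hp : p.Prime) (hdp : d < p) :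
    ¬ ((p : ℤ) ∣ AT f) := by
  -- the acting group
  let Γ := Equiv.Perm (Fin d) × TT f
  let A : MulAction Γ (W → Equiv.Perm (Fin d)) :=
    { smul := fun a k v => a.1 * k v * ((a.2 : W → Equiv.Perm (Fin d)) v)⁻¹
      one_smul := fun k => by
        funext v
        show (1 : Equiv.Perm (Fin d)) * k v * ((1 : W → Equiv.Perm (Fin d)) v)⁻¹ = k v
        simp
      mul_smul := fun a b k => by
        funext v
        show (a.1 * b.1) * k v * (((a.2 : W → Equiv.Perm (Fin d)) * (b.2 : W → Equiv.Perm (Fin d))) v)⁻¹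
          = a.1 * (b.1 * k v * ((b.2 : W → Equiv.Perm (Fin d)) v)⁻¹) *
            ((a.2 : W → Equiv.Perm (Fin d)) v)⁻¹
        rw [Pi.mul_apply, mul_inv_rev]
        group }
  have hsm : ∀ (a : Γ) (k : W → Equiv.Perm (Fin d)) (v : W),
      (a • k) v = a.1 * k v * ((a.2 : W → Equiv.Perm (Fin d)) v)⁻¹ := fun _ _ _ => rfl
  have horb : ∀ σ : W → Equiv.Perm (Fin d), Cons f σ ↔
      σ ∈ MulAction.orbit Γ (1 : W → Equiv.Perm (Fin d)) := by
    intro σ
    constructor
    · intro hσ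
      obtain ⟨π, hπ⟩ := exists_pi f hinv hU σ hσ
      refine ⟨(π, ⟨_, hπ⟩), ?_⟩
      funext v
      show π * (1 : W → Equiv.Perm (Fin d)) v * ((σ v)⁻¹ * π)⁻¹ = σ v
      simp
    · rintro ⟨⟨π, τ, hτ⟩, rfl⟩
      have hτ' := (TT f).inv_mem hτ
      intro v i
      show (π * (1 : W → Equiv.Perm (Fin d)) (f i v) * (τ (f i v))⁻¹) i =
        (π * (1 : W → Equiv.Perm (Fin d)) v * (τ v)⁻¹) i
      have h3 := ((mem_TT f _).1 hτ').2 v i
      have h4 : (τ (f i v))⁻¹ i = (τ v)⁻¹ i := h3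
      show π ((τ (f i v))⁻¹ i) = π ((τ v)⁻¹ i)
      rw [h4]
  -- all signs are positive
  have hW : Even (Fintype.card W) := by
    let i0 : Fin d := ⟨0, by omega⟩
    let e : Function.End W := f i0
    have h1 : e ^ (2 ^ 1) = 1 := by
      rw [pow_one, pow_two]
      funext w
      exact hinv i0 w
    have : Fact (Nat.Prime 2) := ⟨Nat.prime_two⟩
    have h2 := Equiv.Perm.card_fixedPoints_modEq (p := 2) (n := 1) h1
    have h3 : Fintype.card (Function.fixedPoints e) = 0 := by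
      rw [Fintype.card_eq_zero_iff]
      exact ⟨fun x => hne i0 x.1 x.2⟩
    rw [h3] at h2
    exact Nat.even_iff.2 h2
  have hsgn : ∀ σ : W → Equiv.Perm (Fin d), Cons f σ →
      ∏ w, ((Equiv.Perm.sign (σ w) : ℤˣ) : ℤ) = 1 := by
    intro σ hσ
    obtain ⟨π, hπ⟩ := exists_pi f hinv hU σ hσ
    have h1 := sign_TT f hinv hne _ hπ
    have h2 : ∏ v, Equiv.Perm.sign ((σ v)⁻¹ * π) =
        (∏ v, Equiv.Perm.sign (σ v))⁻¹ * (Equiv.Perm.sign π) ^ Fintype.card W := by
      simp only [map_mul, map_inv]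
      rw [Finset.prod_mul_distrib, Finset.prod_inv_distrib, Finset.prod_const, Finset.card_univ]
    have h3 : (Equiv.Perm.sign π) ^ Fintype.card W = 1 := by
      obtain ⟨m, hm⟩ := hW
      rw [hm, ← two_mul, pow_mul, Int.units_sq, one_pow]
    rw [h2, h3, mul_one, inv_eq_one] at h1
    have h4 : ((∏ v, Equiv.Perm.sign (σ v) : ℤˣ) : ℤ) = ((1 : ℤˣ) : ℤ) := by rw [h1]
    rw [Units.coe_prod] at h4
    simpa using h4
  have hAT : AT f = ((univ.filter (fun σ : W → Equiv.Perm (Fin d) => Cons f σ)).card : ℤ) := by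
    unfold AT
    rw [Finset.sum_congr rfl (fun σ hσ => hsgn σ (Finset.mem_filter.1 hσ).2)]
    simp
  have hcard : (univ.filter (fun σ : W → Equiv.Perm (Fin d) => Cons f σ)).card =
      Nat.card (MulAction.orbit Γ (1 : W → Equiv.Perm (Fin d))) := by
    rw [Nat.card_eq_fintype_card, ← Set.toFinset_card]
    congr 1
    ext σ
    rw [Finset.mem_filter, Set.mem_toFinset, horb]
    simp
  have hdvd : Nat.card (MulAction.orbit Γ (1 : W → Equiv.Perm (Fin d))) ∣ Nat.card Γ := by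
    show (MulAction.orbit Γ (1 : W → Equiv.Perm (Fin d))).ncard ∣ Nat.card Γ
    rw [← MulAction.index_stabilizer]
    exact Subgroup.index_dvd_card _
  have hfac : ¬ p ∣ Nat.card (Equiv.Perm (Fin d)) := by
    rw [Nat.card_eq_fintype_card, Fintype.card_perm, Fintype.card_fin]
    intro h
    have := (hp.dvd_factorial).1 h
    omega
  have hT : ¬ p ∣ Nat.card (TT f) := by
    intro h
    have h1 := h.trans (Subgroup.card_subgroup_dvd_card (TT f))
    rw [Nat.card_fun] at h1
    exact hfac (hp.dvd_of_dvd_pow h1)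
  intro h
  rw [hAT, hcard] at h
  have h1 : p ∣ Nat.card Γ := (Int.natCast_dvd_natCast.1 h).trans hdvd
  rw [Nat.card_prod] at h1
  rcases (hp.dvd_mul).1 h1 with h2 | h2
  · exact hfac h2
  · exact hT h2

end

end Pool.Agent.TH378.LC
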